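import Pool.Agent.Helper46.HQ.Link

/-!
# Stationary expansions: the law of large numbers
-/

set_option autoImplicit false

namespace Pool.Agent.Helper46.HQ

open Finset MeasureTheory ProbabilityTheory Filter Topology
open Pool.Agent.Helper59.RE (e norm_e e_add e_sub conj_e continuous_e e_zero norm_e_sub)
open Pool.Agent.Helper32.HP

section safe

variable {Ω : Type*} [mΩ : MeasurableSpace Ω] {μ : Measure Ω} {b A : ℝ}
    {m : ℕ → MeasurableSpace Ω} {X : Ω → ℝ} {Xh Z : ℕ → Ω → ℝ} {Ψ : ℕ → Ω → ℝ → ℂ} {u v δ K B₂ c₀ : ℝ} {F Df : ℕ → ℝ → ℝ}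

/-- eventually everything is safe -/
theorem safe_of_gr [IsProbabilityMeasure μ] (hFl : Flt μ b A m X Xh Z Ψ) (hδ : 0 < δ)
    (hK : 0 ≤ K) (hB : 1 ≤ B₂) (hc₀ : 0 < c₀)
    (hlin : ∀ (n : ℕ) (x y : ℝ), x ∈ Set.Icc u v → y ∈ Set.Icc u v →
      |F n y - F n x - Df n x * (y - x)| ≤ K * B₂ ^ n * |y - x| ^ (1 + δ))
    {ω : Ω} (hX : X ω ∈ Set.Ioo u v) (hg : GrL b c₀ B₂ δ Df (X ω)) (d : ℕ) :
    (∃ n₀ q : ℕ, ∀ n, n₀ ≤ n →
      Safe b A u v Xh Df (fun n : ℕ => ⌊c₀ * (n : ℝ)⌋₊) (kp b A δ K B₂ c₀) d n₀ (1 + 1 / ((q : ℝ) + 1)) n ω) ∧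
    Tendsto (fun n => 2 * kp b A δ K B₂ c₀ n / |Df n (X ω)|) atTop (𝓝 0) ∧ ∀ᶠ n in atTop, Df n (X ω) ≠ 0 := by
  obtain ⟨β, hβ, hb1, hb2, hne, hinc⟩ := hg
  have hb := hFl.hb
  have hb0 : 0 < b := by linarith
  have hlb : 0 < Real.log b := Real.log_pos hb
  have hA := hFl.hA
  have hlβ : 0 < Real.log β := Real.log_pos hβ
  obtain ⟨x, hx⟩ : ∃ x, x = X ω := ⟨_, rfl⟩
  rw [← hx] at hne hinc hX
  -- ratios
  have hr1 : Tendsto (fun n : ℕ => kp b A δ K B₂ c₀ n / |Df n x|) atTop (𝓝 0) := by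
    have h1 := ratio_small (D := fun n => Df n x) (C := K * (2 * A * b) ^ δ) (r := B₂ * (b ^ (-c₀)) ^ δ) (by positivity) (Or.inr (by
      rw [Real.log_mul (by positivity) (by positivity), Real.log_rpow (by positivity), Real.log_rpow hb0]
      linarith)) hne hinc
    refine squeeze_zero_norm' ?_ h1
    refine Eventually.of_forall fun n => ?_
    have := kp_nonneg (δ := δ) (c₀ := c₀) hb hA hK hB n
    rw [Real.norm_eq_abs, abs_div, abs_abs, abs_of_nonneg this]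
    exact div_le_div_of_nonneg_right (kp_bound hb hA hδ hK hB hc₀ n) (abs_nonneg _)
  have hr2 : Tendsto (fun n : ℕ => b ^ (⌊c₀ * (n : ℝ)⌋₊ + d + 2) / |Df n x|) atTop (𝓝 0) := by
    have h1 := ratio_small (D := fun n => Df n x) (C := b ^ (d + 2)) (r := b ^ c₀) (by positivity) (Or.inr (by
      rw [Real.log_rpow hb0]
      exact hb1)) hne hinc
    refine squeeze_zero_norm' ?_ h1
    refine Eventually.of_forall fun n => ?_
    rw [Real.norm_eq_abs, abs_div, abs_abs, abs_of_pos (pow_pos hb0 _)]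
    refine div_le_div_of_nonneg_right ?_ (abs_nonneg _)
    rw [add_assoc, pow_add, mul_comm]
    apply mul_le_mul_of_nonneg_left _ (by positivity)
    rw [← Real.rpow_natCast b ⌊c₀ * (n : ℝ)⌋₊, ← Real.rpow_natCast (b ^ c₀) n, ← Real.rpow_mul hb0.le]
    exact Real.rpow_le_rpow_of_exponent_le hb.le (Nat.floor_le (by positivity))
  have hr3 : Tendsto (fun n : ℕ => 2 * A / b ^ ⌊c₀ * (n : ℝ)⌋₊) atTop (𝓝 0) := by
    have h1 : Tendsto (fun n : ℕ => 2 * A * b * (b ^ (-c₀)) ^ n) atTop (𝓝 0) := by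
      have h2 : Tendsto (fun n : ℕ => (b ^ (-c₀)) ^ n) atTop (𝓝 0) :=
        tendsto_pow_atTop_nhds_zero_of_lt_one (by positivity) (Real.rpow_lt_one_of_one_lt_of_neg hb (by linarith))
      have := h2.const_mul (2 * A * b)
      rwa [mul_zero] at this
    refine squeeze_zero (fun n => by positivity) (fun n => floor_bound hb hA hc₀ n) h1
  -- the ratio `β₁`
  obtain ⟨q, hq⟩ := exists_nat_gt (1 / Real.log β)
  have hq1 : Real.log (1 + 1 / ((q : ℝ) + 1)) < Real.log β := by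
    have hq0 : (0 : ℝ) < (q : ℝ) + 1 := by positivity
    have h1 : Real.log (1 + 1 / ((q : ℝ) + 1)) ≤ 1 / ((q : ℝ) + 1) := by
      have := Real.log_le_sub_one_of_pos (by positivity : (0 : ℝ) < 1 + 1 / ((q : ℝ) + 1))
      linarith
    refine h1.trans_lt ?_
    rw [div_lt_iff₀ hlβ] at hq
    rw [div_lt_iff₀ hq0]
    nlinarith
  obtain ⟨n₁, hn₁⟩ := growth (ℓ := fun n => Real.log |Df n x|) hinc hq1
  obtain ⟨n₂, hn₂⟩ := hne.exists_forall_of_atTop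
  obtain ⟨n₃, hn₃⟩ := (hr1.eventually (gt_mem_nhds (by norm_num : (0 : ℝ) < 1 / 16))).exists_forall_of_atTop
  obtain ⟨n₄, hn₄⟩ := (hr2.eventually (gt_mem_nhds (by norm_num : (0 : ℝ) < 1 / 2))).exists_forall_of_atTop
  have hη : 0 < min (x - u) (v - x) / 2 := half_pos (lt_min (by linarith [hX.1]) (by linarith [hX.2]))
  obtain ⟨n₅, hn₅⟩ := (hr3.eventually (gt_mem_nhds hη)).exists_forall_of_atTop
  obtain ⟨n₀, hn₀⟩ : ∃ n₀, n₀ = max n₁ (max n₂ (max n₃ (max n₄ n₅))) := ⟨_, rfl⟩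
  have g1 : n₁ ≤ n₀ := by rw [hn₀]; exact le_max_left _ _
  have g2 : n₂ ≤ n₀ := by rw [hn₀]; exact le_max_of_le_right (le_max_left _ _)
  have g3 : n₃ ≤ n₀ := by rw [hn₀]; exact le_max_of_le_right (le_max_of_le_right (le_max_left _ _))
  have g4 : n₄ ≤ n₀ := by rw [hn₀]; exact le_max_of_le_right (le_max_of_le_right (le_max_of_le_right (le_max_left _ _)))
  have g5 : n₅ ≤ n₀ := by rw [hn₀]; exact le_max_of_le_right (le_max_of_le_right (le_max_of_le_right (le_max_right _ _)))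
  refine ⟨⟨n₀, q, fun n hn => ?_⟩, ?_, ?_⟩
  · -- facts for all large indices
    have hpos : ∀ j, n₀ ≤ j → 0 < |Df j x| := fun j hj => abs_pos.2 (hn₂ j (g2.trans hj))
    have hκ : ∀ j, n₀ ≤ j → 16 * kp b A δ K B₂ c₀ j ≤ |Df j x| := by
      intro j hj
      have h1 := hn₃ j (g3.trans hj)
      rw [div_lt_iff₀ (hpos j hj)] at h1
      linarith
    have hin : Xh ⌊c₀ * (n : ℝ)⌋₊ ω ∈ Set.Icc (u + 2 * A / b ^ ⌊c₀ * (n : ℝ)⌋₊) (v - 2 * A / b ^ ⌊c₀ * (n : ℝ)⌋₊) := by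
      have h1 := hn₅ n (g5.trans hn)
      have h2 := abs_le.1 (hFl.near'' (le_refl ⌊c₀ * (n : ℝ)⌋₊) ω)
      rw [← hx] at h2
      have h3 := min_le_left (x - u) (v - x)
      have h4 := min_le_right (x - u) (v - x)
      constructor
      · linarith [h2.2]
      · linarith [h2.1]
    have hinI : Xh ⌊c₀ * (n : ℝ)⌋₊ ω ∈ Set.Icc u v := safe_mem hFl le_rfl hin
    have hxI : x ∈ Set.Icc u v := Set.Ioo_subset_Icc_self hX
    have hcl : ∀ j, n₀ ≤ j → j ≤ n → |(|Df j (Xh ⌊c₀ * (n : ℝ)⌋₊ ω)| - |Df j x|)| ≤ 2 * kp b A δ K B₂ c₀ j := by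
      intro j _ hjn
      refine (abs_abs_sub_abs_le_abs_sub _ _).trans ?_
      refine D_close' hb hA hδ hK hB hlin j _ _ hinI hxI ?_
      rw [abs_sub_comm, hx]
      refine hFl.near'' ?_ ω
      apply Nat.floor_mono
      have : (j : ℝ) ≤ n := by exact_mod_cast hjn
      gcongr
    have hcn := abs_le.1 (hcl n hn le_rfl)
    have hkn := hκ n hn
    have hk0 := kp_nonneg (δ := δ) (c₀ := c₀) hb hA hK hB n
    refine ⟨hn, hin, ?_, ?_, fun j hj hjn => ?_⟩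
    · have h1 := hn₄ n (g4.trans hn)
      rw [div_lt_iff₀ (hpos n hn)] at h1
      show b ^ (⌊c₀ * (n : ℝ)⌋₊ + d + 2) ≤ |Df n (Xh ⌊c₀ * (n : ℝ)⌋₊ ω)|
      linarith [hcn.1]
    · show 8 * kp b A δ K B₂ c₀ n ≤ |Df n (Xh ⌊c₀ * (n : ℝ)⌋₊ ω)|
      linarith [hcn.1]
    · show (1 + 1 / ((q : ℝ) + 1)) ^ (n - j) * |Df j (Xh ⌊c₀ * (n : ℝ)⌋₊ ω)| ≤ 4 * |Df n (Xh ⌊c₀ * (n : ℝ)⌋₊ ω)|
      have hcj := abs_le.1 (hcl j hj hjn.le)
      have hkj := hκ j hj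
      have hkj0 := kp_nonneg (δ := δ) (c₀ := c₀) hb hA hK hB j
      have h1 := hn₁ j n (g1.trans hj) hjn.le
      have h2 : (1 + 1 / ((q : ℝ) + 1)) ^ (n - j) * |Df j x| ≤ |Df n x| := by
        have hq0 : (0 : ℝ) < 1 + 1 / ((q : ℝ) + 1) := by positivity
        rw [← Real.log_le_log_iff (mul_pos (pow_pos hq0 _) (hpos j hj)) (hpos n hn), Real.log_mul (pow_pos hq0 _).ne' (hpos j hj).ne',
          Real.log_pow, Nat.cast_sub hjn.le]
        linarith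
      have h3 : 0 < (1 + 1 / ((q : ℝ) + 1)) ^ (n - j) := by positivity
      have h4 : |Df j (Xh ⌊c₀ * (n : ℝ)⌋₊ ω)| ≤ 2 * |Df j x| := by linarith [hcj.2, hpos j hj]
      have h5 : |Df n x| ≤ 2 * |Df n (Xh ⌊c₀ * (n : ℝ)⌋₊ ω)| := by linarith [hcn.1]
      calc (1 + 1 / ((q : ℝ) + 1)) ^ (n - j) * |Df j (Xh ⌊c₀ * (n : ℝ)⌋₊ ω)| ≤
            (1 + 1 / ((q : ℝ) + 1)) ^ (n - j) * (2 * |Df j x|) := by gcongr
        _ = 2 * ((1 + 1 / ((q : ℝ) + 1)) ^ (n - j) * |Df j x|) := by ring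
        _ ≤ 2 * |Df n x| := by gcongr
        _ ≤ _ := by linarith
  · have := hr1.const_mul 2
    rw [mul_zero] at this
    refine this.congr fun n => ?_
    rw [hx]
    ring
  · rw [← hx]
    exact hne

/-- subsequences of safe sequences are safe -/
theorem Safe.sub {D : ℕ → ℝ → ℝ} {Kn : ℕ → ℕ} {κ : ℕ → ℝ} {d n₀ : ℕ} {β₁ : ℝ} (hβ : 1 ≤ β₁) {a : ℕ → ℕ} (ha : StrictMono a) {i : ℕ}
    {ω : Ω} (hi : n₀ ≤ i) (h : Safe b A u v Xh D Kn κ d n₀ β₁ (a i) ω) :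
    Safe b A u v Xh (fun i => D (a i)) (fun i => Kn (a i)) (fun i => κ (a i)) d n₀ β₁ i ω := by
  refine ⟨hi, h.s1, h.s2, h.s3, fun j hj hji => ?_⟩
  refine le_trans ?_ (h.s4 (a j) (hj.trans (ha.id_le j)) (ha hji))
  apply mul_le_mul_of_nonneg_right _ (abs_nonneg _)
  apply pow_le_pow_right₀ hβ
  have h1 : a j + (i - j) ≤ a i := by
    obtain ⟨l, rfl⟩ := Nat.exists_eq_add_of_lt hji
    have h2 : ∀ l : ℕ, a j + l ≤ a (j + l) := by
      intro l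
      induction l with
      | zero => simp
      | succ l ih =>
        have := ha (Nat.lt_succ_self (j + l))
        have h3 : j + (l + 1) = (j + l).succ := rfl
        rw [h3]
        omega
    have h4 := h2 (l + 1)
    have h5 : j + l + 1 - j = l + 1 := by omega
    rw [h5]
    exact h4
  omega

end safe

variable {Ω : Type*} [MeasurableSpace Ω] {μ : Measure Ω} {b C : ℝ} {T : Ω ≃ᵐ Ω} {ξ : Ω → ℝ}

theorem lln_main (hS : Sys μ b C T ξ) [IsProbabilityMeasure μ] (a : ℕ → ℕ) (ha : StrictMono a)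
    (c : ℕ → ℝ) (u v : ℝ) (F Df : ℕ → ℝ → ℝ)
    (hF : ∀ n, Measurable (F n)) (hDf : ∀ n, Measurable (Df n)) (δ K B₂ c₀ : ℝ) (hδ : 0 < δ) (hK : 0 ≤ K)
    (hB : 1 ≤ B₂) (hc₀ : 0 < c₀)
    (hlin : ∀ (n : ℕ) (x y : ℝ), x ∈ Set.Icc u v → y ∈ Set.Icc u v →
      |F n y - F n x - Df n x * (y - x)| ≤ K * B₂ ^ n * |y - x| ^ (1 + δ))
    (h1 : Real.log B₂ < (1 + δ) * c₀ * Real.log b)
    (hgr : ∀ᵐ ω ∂μ, XX b T ξ ω ∈ Set.Ioo u v → GrL b c₀ B₂ δ Df (XX b T ξ ω)) (d : ℕ) :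
    ∀ᵐ ω ∂μ, XX b T ξ ω ∈ Set.Ioo u v → ∀ ε : ℝ, 0 < ε → ∀ᶠ N : ℕ in atTop,
      ‖∑ i ∈ range N, e (F (a i) (XX b T ξ ω) + c i)‖ ^ 2 ≤
        N * (∑ n ∈ range (a N), SQ T (qq μ b C T ξ d) ω (Real.log |Df n (XX b T ξ ω)| / Real.log b)) +
          ε * (N : ℝ) ^ 2 := by
  have hb := hS.hb
  have hb0 : 0 < b := by linarith
  have hlb : 0 < Real.log b := Real.log_pos hb
  have hFl := flt_of_sys hS
  obtain ⟨L, K', θ, hL⟩ := loc_of_lin hb (BB_nonneg hS) hF hDf hδ hK hB hc₀ hlin h1 a ha c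
  have h2 : ∀ᵐ ω ∂μ, ∀ n₀ q : ℕ, ∀ ε : ℝ, 0 < ε → ∀ᶠ N : ℕ in atTop,
      ‖∑ n ∈ range N, dd b (XX b T ξ) (Xs b T ξ) (fun k ω t => psi μ b C T ξ (past T ξ (T^[k] ω)) t)
        (fun i x => F (a i) x + c i) (fun i => Df (a i)) L
        (ww b (BB b C) u v (Xs b T ξ) (fun i => Df (a i)) (fun i => ⌊c₀ * (a i : ℝ)⌋₊)
          (fun i => kp b (BB b C) δ K B₂ c₀ (a i)) d n₀ (1 + 1 / ((q : ℝ) + 1))) n ω‖ ≤ ε * N := by
    rw [ae_all_iff]
    intro n₀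
    rw [ae_all_iff]
    intro q
    have hβ : (1 : ℝ) < 1 + 1 / ((q : ℝ) + 1) := by
      have : (0 : ℝ) < 1 / ((q : ℝ) + 1) := by positivity
      linarith
    exact dd_small hFl hL hβ (ww_wgt hFl hL.hDm)
  filter_upwards [h2, hgr] with ω h3 h4 hX
  obtain ⟨⟨n₀, q, hsafe⟩, hr, hne⟩ := safe_of_gr hFl hδ hK hB hc₀ hlin hX (h4 hX) d
  have hβ : (1 : ℝ) ≤ 1 + 1 / ((q : ℝ) + 1) := by
    have : (0 : ℝ) < 1 / ((q : ℝ) + 1) := by positivity
    linarith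
  have h5 := lln_point (ω := ω) hFl hL d (h3 n₀ q) (by
    filter_upwards [eventually_ge_atTop n₀] with i hi
    exact (hsafe (a i) (hi.trans (ha.id_le i))).sub hβ ha hi) (hr.comp ha.tendsto_atTop)
    (fun i => Real.log |Df (a i) (XX b T ξ ω)| / Real.log b) (by
      filter_upwards [ha.tendsto_atTop.eventually hne] with i hi
      rw [Real.rpow_def_of_pos hb0, mul_div_cancel₀ _ hlb.ne', Real.exp_log (abs_pos.2 hi)])
  intro ε hε
  filter_upwards [h5 ε hε] with N hN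
  refine hN.trans (add_le_add (mul_le_mul_of_nonneg_left ?_ (Nat.cast_nonneg N)) le_rfl)
  have h6 : ∀ y, qv b d (fun k ω t => psi μ b C T ξ (past T ξ (T^[k] ω)) t) ω y = SQ T (qq μ b C T ξ d) ω y := by
    intro y
    unfold qv SQ qq
    rfl
  have h7 : ∑ n ∈ range N, qv b d (fun k ω t => psi μ b C T ξ (past T ξ (T^[k] ω)) t) ω (Real.log |Df (a n) (XX b T ξ ω)| / Real.log b) =
      ∑ n ∈ (range N).image a, SQ T (qq μ b C T ξ d) ω (Real.log |Df n (XX b T ξ ω)| / Real.log b) := by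
    rw [sum_image fun x _ y _ hxy => ha.injective hxy]
    exact sum_congr rfl fun n _ => h6 _
  rw [h7]
  refine sum_le_sum_of_subset_of_nonneg ?_ fun n _ _ => ?_
  · intro n hn
    rw [mem_image] at hn
    obtain ⟨i, hi, rfl⟩ := hn
    exact mem_range.2 (ha (mem_range.1 hi))
  · rw [← h6]
    exact qv_nonneg _ _ _ _ _

end Pool.Agent.Helper46.HQ
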