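import Pool.Agent.Helper46.HQ.Cor
import Pool.Agent.Helper59.PP.Sq

/-!
# Random numbers revealed along a filtration: the law of large numbers for the differences
-/

set_option autoImplicit false

namespace Pool.Agent.Helper46.HQ

open Finset MeasureTheory ProbabilityTheory Filter Topology
open Pool.Agent.Helper59.RE (e norm_e e_add e_sub conj_e continuous_e e_zero norm_e_sub)

/-- second moments of sums of weakly correlated variables -/
theorem second {Ω : Type*} [MeasurableSpace Ω] {μ : Measure Ω} [IsProbabilityMeasure μ] (d : ℕ → Ω → ℂ)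
    (hd : ∀ n, Measurable (d n)) (hd2 : ∀ n ω, ‖d n ω‖ ≤ 2) (C ρ : ℝ) (hC : 0 ≤ C) (hρ0 : 0 ≤ ρ) (hρ1 : ρ < 1)
    (h : ∀ j n, j < n → ‖∫ ω, d n ω * (starRingEnd ℂ) (d j ω) ∂μ‖ ≤ C * ρ ^ (n - j)) (N : ℕ) :
    ∫ ω, ‖∑ n ∈ range N, d n ω‖ ^ 2 ∂μ ≤ (4 + 2 * C / (1 - ρ)) * N := by
  have hconj : Measurable (starRingEnd ℂ) := Complex.continuous_conj.measurable
  have hSm : ∀ N, Measurable fun ω => ∑ n ∈ range N, d n ω := fun N => Finset.measurable_fun_sum _ fun n _ => hd n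
  have hSb : ∀ N ω, ‖∑ n ∈ range N, d n ω‖ ≤ 2 * N := by
    intro N ω
    refine (norm_sum_le _ _).trans ((sum_le_card_nsmul _ _ _ fun n _ => hd2 n ω).trans (le_of_eq ?_))
    rw [card_range, nsmul_eq_mul, mul_comm]
  induction N with
  | zero => simp
  | succ N ih =>
    have h1 : ∀ ω, ‖∑ n ∈ range (N + 1), d n ω‖ ^ 2 = ‖∑ n ∈ range N, d n ω‖ ^ 2 +
        (‖d N ω‖ ^ 2 + 2 * (d N ω * (starRingEnd ℂ) (∑ n ∈ range N, d n ω)).re) := by
      intro ω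
      rw [sum_range_succ, add_comm (∑ n ∈ range N, d n ω), Complex.sq_norm, Complex.normSq_add, Complex.sq_norm, Complex.sq_norm]
      ring
    have i1 : Integrable (fun ω => ‖∑ n ∈ range N, d n ω‖ ^ 2) μ :=
      integrable_bddR ((hSm N).norm.pow_const 2) (C := (2 * N) ^ 2) fun ω => by
        rw [abs_of_nonneg (by positivity)]
        exact pow_le_pow_left₀ (norm_nonneg _) (hSb N ω) 2
    have i2 : Integrable (fun ω => ‖d N ω‖ ^ 2) μ :=
      integrable_bddR ((hd N).norm.pow_const 2) (C := 2 ^ 2) fun ω => by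
        rw [abs_of_nonneg (by positivity)]
        exact pow_le_pow_left₀ (norm_nonneg _) (hd2 N ω) 2
    have i3 : Integrable (fun ω => d N ω * (starRingEnd ℂ) (∑ n ∈ range N, d n ω)) μ :=
      integrable_bdd ((hd N).mul (hconj.comp (hSm N))) (C := 2 * (2 * N)) fun ω => by
        rw [norm_mul, RCLike.norm_conj]
        exact mul_le_mul (hd2 N ω) (hSb N ω) (norm_nonneg _) zero_le_two
    have i4 : Integrable (fun ω => 2 * (d N ω * (starRingEnd ℂ) (∑ n ∈ range N, d n ω)).re) μ := i3.re.const_mul 2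
    have i5 : Integrable (fun ω => ‖d N ω‖ ^ 2 + 2 * (d N ω * (starRingEnd ℂ) (∑ n ∈ range N, d n ω)).re) μ := i2.add i4
    rw [integral_congr_ae (Eventually.of_forall h1), integral_add i1 i5, integral_add i2 i4, integral_const_mul]
    have h2 : ∫ ω, ‖d N ω‖ ^ 2 ∂μ ≤ 4 := by
      have h3 : ∫ ω, ‖d N ω‖ ^ 2 ∂μ ≤ ∫ ω, (4 : ℝ) ∂μ := integral_mono i2 (integrable_const _) fun ω => by
        have h4 := pow_le_pow_left₀ (norm_nonneg _) (hd2 N ω) 2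
        calc ‖d N ω‖ ^ 2 ≤ 2 ^ 2 := h4
          _ = 4 := by norm_num
      simpa using h3
    have h3 : ∫ ω, (d N ω * (starRingEnd ℂ) (∑ n ∈ range N, d n ω)).re ∂μ ≤ C / (1 - ρ) := by
      have h4 : ∫ ω, (d N ω * (starRingEnd ℂ) (∑ n ∈ range N, d n ω)).re ∂μ =
          (∫ ω, d N ω * (starRingEnd ℂ) (∑ n ∈ range N, d n ω) ∂μ).re := by
        have := integral_re i3
        simpa using this
      rw [h4]
      refine (Complex.re_le_norm _).trans ?_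
      have h5 : ∀ ω, d N ω * (starRingEnd ℂ) (∑ n ∈ range N, d n ω) = ∑ j ∈ range N, d N ω * (starRingEnd ℂ) (d j ω) := by
        intro ω
        rw [map_sum, mul_sum]
      have i6 : ∀ j, Integrable (fun ω => d N ω * (starRingEnd ℂ) (d j ω)) μ := fun j => integrable_bdd
        ((hd N).mul (hconj.comp (hd j))) (C := 2 * 2) fun ω => by
          show ‖d N ω * (starRingEnd ℂ) (d j ω)‖ ≤ 2 * 2
          rw [norm_mul, RCLike.norm_conj]
          exact mul_le_mul (hd2 N ω) (hd2 j ω) (norm_nonneg _) zero_le_two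
      rw [integral_congr_ae (Eventually.of_forall h5), integral_finset_sum _ fun j _ => i6 j]
      refine (norm_sum_le _ _).trans ((sum_le_sum fun j hj => h j N (mem_range.1 hj)).trans ?_)
      rw [← mul_sum, div_eq_mul_inv]
      apply mul_le_mul_of_nonneg_left _ hC
      have h6 : ∑ j ∈ range N, ρ ^ (N - j) = ∑ j ∈ range N, ρ ^ (j + 1) := by
        rw [← sum_range_reflect (fun j => ρ ^ (j + 1)) N]
        refine sum_congr rfl fun j hj => ?_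
        rw [mem_range] at hj
        congr 1
        omega
      rw [h6]
      have h7 : ∑ j ∈ range N, ρ ^ (j + 1) ≤ ∑ j ∈ range N, ρ ^ j := sum_le_sum fun j _ => by
        rw [pow_succ]
        exact mul_le_of_le_one_right (pow_nonneg hρ0 _) hρ1.le
      refine h7.trans ?_
      rw [← tsum_geometric_of_lt_one hρ0 hρ1]
      exact (summable_geometric_of_lt_one hρ0 hρ1).sum_le_tsum _ fun j _ => pow_nonneg hρ0 _
    push_cast
    rw [mul_add, mul_one]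
    have h8 : 2 * C / (1 - ρ) = 2 * (C / (1 - ρ)) := by ring
    linarith

/-- from second moments to almost sure convergence -/
theorem as_small {Ω : Type*} [MeasurableSpace Ω] {μ : Measure Ω} [IsProbabilityMeasure μ] (d : ℕ → Ω → ℂ)
    (hd : ∀ n, Measurable (d n)) (hd2 : ∀ n ω, ‖d n ω‖ ≤ 2) (C : ℝ)
    (h : ∀ N : ℕ, ∫ ω, ‖∑ n ∈ range N, d n ω‖ ^ 2 ∂μ ≤ C * N) :
    ∀ᵐ ω ∂μ, ∀ ε : ℝ, 0 < ε → ∀ᶠ N : ℕ in atTop, ‖∑ n ∈ range N, d n ω‖ ≤ ε * N := by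
  have hC0 : 0 ≤ C := by
    have h1 := h 1
    have h2 : 0 ≤ ∫ ω, ‖∑ n ∈ range 1, d n ω‖ ^ 2 ∂μ := integral_nonneg fun ω => by positivity
    push_cast at h1
    linarith
  have hSm : ∀ N, Measurable fun ω => ∑ n ∈ range N, d n ω := fun N => Finset.measurable_fun_sum _ fun n _ => hd n
  have hSb : ∀ N ω, ‖∑ n ∈ range N, d n ω‖ ≤ 2 * N := by
    intro N ω
    refine (norm_sum_le _ _).trans ((sum_le_card_nsmul _ _ _ fun n _ => hd2 n ω).trans (le_of_eq ?_))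
    rw [card_range, nsmul_eq_mul, mul_comm]
  obtain ⟨f, hf⟩ : ∃ f : ℕ → Ω → ℝ, f = fun (n : ℕ) ω => 1 / ((n : ℝ) + 1) ^ 4 * ‖∑ k ∈ range ((n + 1) ^ 2), d k ω‖ ^ 2 := ⟨_, rfl⟩
  have hfint : ∀ n, Integrable (f n) μ := fun n => by
    rw [hf]
    exact (integrable_bddR ((hSm _).norm.pow_const 2) (C := (2 * ((n + 1) ^ 2 : ℕ)) ^ 2) fun ω => by
        rw [abs_of_nonneg (by positivity)]
        exact pow_le_pow_left₀ (norm_nonneg _) (hSb _ ω) 2).const_mul _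
  have hfi : ∀ n, ∫ ω, f n ω ∂μ ≤ C * (1 / ((n : ℝ) + 1) ^ 2) := by
    intro n
    rw [hf]
    simp only
    rw [integral_const_mul]
    have h2 := h ((n + 1) ^ 2)
    push_cast at h2
    calc 1 / ((n : ℝ) + 1) ^ 4 * ∫ x, ‖∑ k ∈ range ((n + 1) ^ 2), d k x‖ ^ 2 ∂μ ≤
        1 / ((n : ℝ) + 1) ^ 4 * (C * ((n : ℝ) + 1) ^ 2) := by gcongr
      _ = C * (1 / ((n : ℝ) + 1) ^ 2) := by
        field_simp
  have hs : Summable fun n : ℕ => C * (1 / ((n : ℝ) + 1) ^ 2) := by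
    refine Summable.mul_left C ?_
    have := (summable_nat_add_iff 1).2 (Real.summable_one_div_nat_pow.2 (show 1 < 2 by norm_num))
    exact_mod_cast this
  have hae := Pool.Agent.Helper59.PP.ae0 μ f hfint (fun j ω => by rw [hf]; positivity) _ hs 0 fun j _ => hfi j
  filter_upwards [hae] with ω hω
  intro ε hε
  have h4 : ∀ᶠ n : ℕ in atTop, f n ω < (ε / 2) ^ 2 := hω.eventually (gt_mem_nhds (by positivity))
  obtain ⟨n₀, hn₀⟩ := eventually_atTop.1 h4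
  obtain ⟨n₁, hn₁⟩ := exists_nat_gt (16 / ε + 1)
  filter_upwards [eventually_ge_atTop ((max n₀ n₁ + 1) ^ 2)] with N hN
  -- the square root
  obtain ⟨m, hm⟩ : ∃ m, m = Nat.sqrt N := ⟨_, rfl⟩
  have hm1 : max n₀ n₁ + 1 ≤ m := by
    rw [hm, Nat.le_sqrt]
    rw [sq] at hN
    exact hN
  obtain ⟨n, hmn⟩ : ∃ n, m = n + 1 := ⟨m - 1, by omega⟩
  have hmle : (n + 1) ^ 2 ≤ N := by
    have := Nat.sqrt_le' N
    rw [← hm, hmn] at this
    exact this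
  have hmlt : N < (n + 2) ^ 2 := by
    have := Nat.lt_succ_sqrt' N
    rw [← hm, hmn] at this
    exact this
  rw [hmn] at hm1
  have hn0 : n₀ ≤ n := by have := le_max_left n₀ n₁; omega
  have hn1 : n₁ ≤ n := by have := le_max_right n₀ n₁; omega
  have hNr : ((n : ℝ) + 1) ^ 2 ≤ N := by exact_mod_cast hmle
  have h5 : ∑ k ∈ range N, d k ω = ∑ k ∈ range ((n + 1) ^ 2), d k ω + ∑ k ∈ Finset.Ico ((n + 1) ^ 2) N, d k ω := by
    rw [range_eq_Ico, range_eq_Ico, Finset.sum_Ico_consecutive _ (Nat.zero_le _) hmle]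
  have h6 : ‖∑ k ∈ Finset.Ico ((n + 1) ^ 2) N, d k ω‖ ≤ (2 * n + 3) * 2 := by
    refine (norm_sum_le _ _).trans ((sum_le_card_nsmul _ _ _ fun k _ => hd2 k ω).trans ?_)
    rw [Nat.card_Ico, nsmul_eq_mul]
    have h7 : N - (n + 1) ^ 2 ≤ 2 * n + 3 := by
      have : (n + 2) ^ 2 = (n + 1) ^ 2 + (2 * n + 3) := by ring
      omega
    have h8 : ((N - (n + 1) ^ 2 : ℕ) : ℝ) ≤ 2 * n + 3 := by exact_mod_cast h7
    gcongr
  have h7 := hn₀ n hn0
  have h7' : ‖∑ k ∈ range ((n + 1) ^ 2), d k ω‖ ≤ ε / 2 * ((n : ℝ) + 1) ^ 2 := by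
    rw [hf] at h7
    simp only at h7
    rw [one_div_mul_eq_div, div_lt_iff₀ (by positivity)] at h7
    have h9 : ‖∑ k ∈ range ((n + 1) ^ 2), d k ω‖ ^ 2 ≤ (ε / 2 * ((n : ℝ) + 1) ^ 2) ^ 2 := by
      refine h7.le.trans (le_of_eq ?_)
      ring
    exact (pow_le_pow_iff_left₀ (norm_nonneg _) (by positivity) two_ne_zero).1 h9
  rw [h5]
  refine (norm_add_le _ _).trans ?_
  have h9 : 16 / ε + 1 < n := hn₁.trans_le (by exact_mod_cast hn1)
  have h10 : 16 < ε * n := by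
    have : 16 / ε < n := by linarith
    rw [div_lt_iff₀ hε] at this
    linarith
  have hn0' : (0 : ℝ) ≤ n := Nat.cast_nonneg n
  have h8 : (2 * (n : ℝ) + 3) * 2 ≤ ε / 2 * ((n : ℝ) + 1) ^ 2 := by
    have h12 : (2 * (n : ℝ) + 3) * 2 ≤ 8 * (n + 1) := by linarith
    have h13 : 8 * ((n : ℝ) + 1) ≤ ε / 2 * n * (n + 1) := by
      apply mul_le_mul_of_nonneg_right _ (by linarith)
      linarith
    have h14 : ε / 2 * n * (n + 1) ≤ ε / 2 * ((n : ℝ) + 1) ^ 2 := by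
      have : 0 < ε / 2 := by linarith
      nlinarith
    linarith
  have h15 : ε * ((n : ℝ) + 1) ^ 2 ≤ ε * N := by gcongr
  linarith

variable {Ω : Type*} [mΩ : MeasurableSpace Ω] {μ : Measure Ω} [IsProbabilityMeasure μ] {b A : ℝ}
    {m : ℕ → MeasurableSpace Ω} {X : Ω → ℝ} {Xh Z : ℕ → Ω → ℝ} {Ψ : ℕ → Ω → ℝ → ℂ} {u v : ℝ} {F D : ℕ → ℝ → ℝ}
    {Kn L : ℕ → ℕ} {κ : ℕ → ℝ} {C₀ n₀ : ℕ} {β₁ K θ : ℝ} {w : ℕ → ℕ → Ω → ℝ}

/-- the law of large numbers for the differences -/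
theorem dd_small (hF : Flt μ b A m X Xh Z Ψ) (hL : Loc b A u v F D Kn L κ K θ) (hβ : 1 < β₁)
    (hw : Wgt b A m Xh u v D Kn L κ C₀ n₀ β₁ w) :
    ∀ᵐ ω ∂μ, ∀ ε : ℝ, 0 < ε → ∀ᶠ N : ℕ in atTop, ‖∑ n ∈ range N, dd b X Xh Ψ F D L w n ω‖ ≤ ε * N := by
  have hb0 : 0 < b := by linarith [hF.hb]
  have hA := hF.hA
  have hβ0 : 0 < β₁ := by linarith
  obtain ⟨ρ, hρ⟩ : ∃ ρ : ℝ, ρ = max θ β₁⁻¹ := ⟨_, rfl⟩
  have hρ0 : 0 ≤ ρ := by rw [hρ]; exact hL.hθ0.le.trans (le_max_left _ _)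
  have hρ1 : ρ < 1 := by rw [hρ]; exact max_lt hL.hθ1 (inv_lt_one_of_one_lt₀ hβ)
  obtain ⟨C₅, hC₅⟩ : ∃ C₅ : ℝ, C₅ = 4 * Real.pi * K + 2 * (32 * b + 32 * Real.pi * A * b ^ (C₀ + 2)) := ⟨_, rfl⟩
  have hK := hL.hK
  have hC₅0 : 0 ≤ C₅ := by rw [hC₅]; positivity
  refine as_small _ (dd_meas hF hw hL.hFm hL.hDm) (dd_norm hF hw) (4 + 2 * C₅ / (1 - ρ)) fun N =>
    second _ (dd_meas hF hw hL.hFm hL.hDm) (dd_norm hF hw) C₅ ρ hC₅0 hρ0 hρ1 (fun j n hjn => ?_) N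
  refine (pair_bound hF hL hβ hw hjn).trans ?_
  have h1 : θ ^ n ≤ ρ ^ (n - j) := by
    calc θ ^ n ≤ θ ^ (n - j) := pow_le_pow_of_le_one hL.hθ0.le hL.hθ1.le (Nat.sub_le _ _)
      _ ≤ ρ ^ (n - j) := pow_le_pow_left₀ hL.hθ0.le (by rw [hρ]; exact le_max_left _ _) _
  have h2 : (β₁ ^ (n - j))⁻¹ ≤ ρ ^ (n - j) := by
    rw [← inv_pow]
    exact pow_le_pow_left₀ (by positivity) (by rw [hρ]; exact le_max_right _ _) _
  rw [hC₅, div_eq_mul_inv]
  calc 4 * Real.pi * (K * θ ^ n) + 2 * ((32 * b + 32 * Real.pi * A * b ^ (C₀ + 2)) * (β₁ ^ (n - j))⁻¹) ≤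
        4 * Real.pi * (K * ρ ^ (n - j)) + 2 * ((32 * b + 32 * Real.pi * A * b ^ (C₀ + 2)) * ρ ^ (n - j)) := by gcongr
    _ = _ := by ring

end Pool.Agent.Helper46.HQ
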