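import Pool.Agent.Helper46.HQ.Pair

/-!
# Random numbers revealed along a filtration: the correlations and the law of large numbers
-/

set_option autoImplicit false

namespace Pool.Agent.Helper46.HQ

open Finset MeasureTheory ProbabilityTheory Filter Topology
open Pool.Agent.Helper59.RE (e norm_e e_add e_sub conj_e continuous_e e_zero norm_e_sub)

variable {Ω : Type*} [mΩ : MeasurableSpace Ω] {μ : Measure Ω} [IsProbabilityMeasure μ] {b A : ℝ}
    {m : ℕ → MeasurableSpace Ω} {X : Ω → ℝ} {Xh Z : ℕ → Ω → ℝ} {Ψ : ℕ → Ω → ℝ → ℂ} {u v : ℝ} {F D : ℕ → ℝ → ℝ}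
    {Kn L : ℕ → ℕ} {κ : ℕ → ℝ} {C₀ n₀ : ℕ} {β₁ K θ : ℝ} {w : ℕ → ℕ → Ω → ℝ}

/-- conditional means -/
theorem cond (hF : Flt μ b A m X Xh Z Ψ) (hL : Loc b A u v F D Kn L κ K θ)
    (hw : Wgt b A m Xh u v D Kn L κ C₀ n₀ β₁ w) {n k : ℕ} (hk : k ∈ range (L n + 1)) (g : Ω → ℂ) (hg : Measurable[m k] g)
    (hg2 : ∀ ω, ‖g ω‖ ≤ 2) :
    ‖∫ ω, ((w n k ω : ℝ) : ℂ) * (g ω * del b X Xh Ψ F D n k ω) ∂μ‖ ≤ 4 * Real.pi * (K * θ ^ n) * ∫ ω, w n k ω ∂μ := by
  have hb0 : 0 < b := by linarith [hF.hb]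
  have hmw : Measurable (w n k) := (hw.wm n k).mono (hF.le k) le_rfl
  have hmg : Measurable g := hg.mono (hF.le k) le_rfl
  have hmX := hF.mX
  have hmXh := hF.mXh k
  have hmZ := hF.hZ k
  have hmF := hL.hFm n
  have hmD := hL.hDm n
  have hmPsi := hF.mPsi' hL.hDm n k
  obtain ⟨g', hg'⟩ : ∃ g' : Ω → ℂ, g' = fun ω => ((w n k ω : ℝ) : ℂ) * g ω * e (F n (Xh k ω)) := ⟨_, rfl⟩
  have hg'm : Measurable[m k] g' := by
    rw [hg']
    exact ((Complex.measurable_ofReal.comp (hw.wm n k)).mul hg).mul (continuous_e.measurable.comp (hmF.comp (hF.hXh k)))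
  have hg'm' : Measurable g' := hg'm.mono (hF.le k) le_rfl
  have hg'2 : ∀ ω, ‖g' ω‖ ≤ 2 := by
    intro ω
    rw [hg']
    simp only
    rw [norm_mul, norm_mul, norm_e, mul_one, Complex.norm_real, Real.norm_eq_abs, abs_of_nonneg (hw.w0 _ _ _)]
    calc w n k ω * ‖g ω‖ ≤ 1 * 2 := mul_le_mul (hw.le_one hk ω) (hg2 ω) (norm_nonneg _) zero_le_one
      _ = 2 := by norm_num
  obtain ⟨t, ht⟩ : ∃ t : Ω → ℝ, t = fun ω => D n (Xh k ω) / b ^ k := ⟨_, rfl⟩
  have htm : Measurable[m k] t := by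
    rw [ht]
    exact (hmD.comp (hF.hXh k)).div_const _
  have htm' : Measurable t := htm.mono (hF.le k) le_rfl
  obtain ⟨f₁, hf₁⟩ : ∃ f₁ : Ω → ℂ, f₁ = fun ω => ((w n k ω : ℝ) : ℂ) * g ω *
      (e (F n (X ω)) - e (F n (Xh k ω) + D n (Xh k ω) * (X ω - Xh k ω))) := ⟨_, rfl⟩
  have hf₁m : Measurable f₁ := by
    rw [hf₁]
    refine ((Complex.measurable_ofReal.comp hmw).mul hmg).mul ?_
    exact (continuous_e.measurable.comp (hmF.comp hmX)).sub (continuous_e.measurable.comp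
      ((hmF.comp hmXh).add ((hmD.comp hmXh).mul (hmX.sub hmXh))))
  have hf₁b : ∀ ω, ‖f₁ ω‖ ≤ 4 * Real.pi * (K * θ ^ n) * w n k ω := by
    intro ω
    rw [hf₁]
    simp only
    rw [norm_mul, norm_mul, Complex.norm_real, Real.norm_eq_abs, abs_of_nonneg (hw.w0 _ _ _)]
    by_cases hz : w n k ω = 0
    · rw [hz]
      simp
    · have hS := (hw.ws n k ω hz).1
      have hk' := hw.k_ge hF hz
      have h1 := hL.hF n _ (safe_mem hF hk' hS.s1) _ (safe_memX hF hS.s1) (by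
        rw [abs_sub_comm]
        exact hF.near'' hk' ω)
      have h2 : |F n (X ω) - (F n (Xh k ω) + D n (Xh k ω) * (X ω - Xh k ω))| ≤ K * θ ^ n := by
        rw [← sub_sub]
        refine h1.trans (le_trans ?_ (hL.hκ n))
        exact mul_le_mul_of_nonneg_left (hF.near'' hk' ω) (hL.hκ0 n)
      have h3 := norm_e_sub (F n (X ω)) (F n (Xh k ω) + D n (Xh k ω) * (X ω - Xh k ω))
      have h4 : ‖e (F n (X ω)) - e (F n (Xh k ω) + D n (Xh k ω) * (X ω - Xh k ω))‖ ≤ 2 * Real.pi * (K * θ ^ n) := by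
        refine h3.trans ?_
        gcongr
      have hw0 := hw.w0 n k ω
      calc w n k ω * ‖g ω‖ * ‖e (F n (X ω)) - e (F n (Xh k ω) + D n (Xh k ω) * (X ω - Xh k ω))‖ ≤
            w n k ω * 2 * (2 * Real.pi * (K * θ ^ n)) := by
            gcongr
            exact hg2 ω
        _ = _ := by ring
  have hsplit : ∀ ω, ((w n k ω : ℝ) : ℂ) * (g ω * del b X Xh Ψ F D n k ω) =
      f₁ ω + (g' ω * e (t ω * Z k ω) - g' ω * Ψ k ω (t ω)) := by
    intro ω
    rw [hf₁, hg', ht]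
    simp only
    have h5 : D n (Xh k ω) * (X ω - Xh k ω) = D n (Xh k ω) / b ^ k * Z k ω := by
      have h6 : X ω - Xh k ω = Z k ω / b ^ k := by rw [hF.eq k ω, add_sub_cancel_left]
      rw [h6]
      ring
    rw [h5, e_add]
    unfold del
    ring
  have hCK : 0 ≤ K * θ ^ n := mul_nonneg hL.hK (pow_nonneg hL.hθ0.le _)
  have hi₁ : Integrable f₁ μ := integrable_bdd hf₁m (C := 4 * Real.pi * (K * θ ^ n) * 1) fun ω =>
    (hf₁b ω).trans (mul_le_mul_of_nonneg_left (hw.le_one hk ω) (by positivity))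
  have hi₂ : Integrable (fun ω => g' ω * e (t ω * Z k ω)) μ :=
    integrable_bdd (hg'm'.mul (continuous_e.measurable.comp (htm'.mul hmZ))) (C := 2) fun ω => by
      rw [norm_mul, norm_e, mul_one]
      exact hg'2 ω
  have hi₃ : Integrable (fun ω => g' ω * Ψ k ω (t ω)) μ :=
    integrable_bdd (hg'm'.mul ((hF.hΨm k t htm).mono (hF.le k) le_rfl)) (C := 2) fun ω => by
      rw [norm_mul]
      calc ‖g' ω‖ * ‖Ψ k ω (t ω)‖ ≤ 2 * 1 := mul_le_mul (hg'2 ω) (hF.hΨ1 _ _ _) (norm_nonneg _) zero_le_two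
        _ = 2 := by norm_num
  have hiw : Integrable (w n k) μ := integrable_bddR hmw (C := 1) fun ω => by
    rw [abs_of_nonneg (hw.w0 _ _ _)]
    exact hw.le_one hk ω
  have hi₄ : Integrable (fun ω => g' ω * e (t ω * Z k ω) - g' ω * Ψ k ω (t ω)) μ := hi₂.sub hi₃
  rw [integral_congr_ae (Eventually.of_forall hsplit), integral_add hi₁ hi₄, integral_sub hi₂ hi₃,
    hF.key k g' t hg'm htm hg'2, sub_self, add_zero]
  refine (norm_integral_le_of_norm_le (hiw.const_mul _) (Eventually.of_forall hf₁b)).trans (le_of_eq ?_)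
  rw [integral_const_mul]

/-- the correlations -/
theorem pair_bound (hF : Flt μ b A m X Xh Z Ψ) (hL : Loc b A u v F D Kn L κ K θ) (hβ : 1 < β₁)
    (hw : Wgt b A m Xh u v D Kn L κ C₀ n₀ β₁ w) {j n : ℕ} (hjn : j < n) :
    ‖∫ ω, dd b X Xh Ψ F D L w n ω * (starRingEnd ℂ) (dd b X Xh Ψ F D L w j ω) ∂μ‖ ≤
      4 * Real.pi * (K * θ ^ n) + 2 * ((32 * b + 32 * Real.pi * A * b ^ (C₀ + 2)) / β₁ ^ (n - j)) := by
  have hb0 : 0 < b := by linarith [hF.hb]
  have hA := hF.hA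
  have hβn : 0 < β₁ ^ (n - j) := pow_pos (by linarith) _
  obtain ⟨C₄, hC₄⟩ : ∃ C₄ : ℝ, C₄ = (32 * b + 32 * Real.pi * A * b ^ (C₀ + 2)) / β₁ ^ (n - j) := ⟨_, rfl⟩
  have hC₄0 : 0 ≤ C₄ := by
    rw [hC₄]
    positivity
  rw [← hC₄]
  have hmw : ∀ k, Measurable (w n k) := fun k => (hw.wm n k).mono (hF.le k) le_rfl
  have hmd := dd_meas hF hw hL.hFm hL.hDm j
  have hiw : ∀ k ∈ range (L n + 1), Integrable (w n k) μ := fun k hk => integrable_bddR (hmw k) (C := 1) fun ω => by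
    rw [abs_of_nonneg (hw.w0 _ _ _)]
    exact hw.le_one hk ω
  have hconj : Measurable (starRingEnd ℂ) := Complex.continuous_conj.measurable
  -- one depth
  have h1 : ∀ k ∈ range (L n + 1), ‖∫ ω, ((w n k ω : ℝ) : ℂ) * del b X Xh Ψ F D n k ω * (starRingEnd ℂ) (dd b X Xh Ψ F D L w j ω) ∂μ‖ ≤
      (4 * Real.pi * (K * θ ^ n) + 2 * C₄) * ∫ ω, w n k ω ∂μ := by
    intro k hk
    have hdkm := dk_meas hF hw hL.hFm hL.hDm j k
    have hdkm' : Measurable (dk b Xh Ψ F D L w j k) := hdkm.mono (hF.le k) le_rfl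
    have h2 := cond hF hL hw hk (fun ω => (starRingEnd ℂ) (dk b Xh Ψ F D L w j k ω)) (hconj.comp hdkm) (fun ω => by
      rw [RCLike.norm_conj]
      exact dk_norm hF hw j k ω)
    obtain ⟨f₂, hf₂⟩ : ∃ f₂ : Ω → ℂ, f₂ = fun ω => ((w n k ω : ℝ) : ℂ) * del b X Xh Ψ F D n k ω *
      (starRingEnd ℂ) (dd b X Xh Ψ F D L w j ω - dk b Xh Ψ F D L w j k ω) := ⟨_, rfl⟩
    have hf₂m : Measurable f₂ := by
      rw [hf₂]
      exact ((Complex.measurable_ofReal.comp (hmw k)).mul (del_meas hF hL.hFm hL.hDm n k)).mul (hconj.comp (hmd.sub hdkm'))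
    have hf₂b : ∀ ω, ‖f₂ ω‖ ≤ 2 * C₄ * w n k ω := by
      intro ω
      rw [hf₂]
      simp only
      rw [norm_mul, norm_mul, Complex.norm_real, Real.norm_eq_abs, abs_of_nonneg (hw.w0 _ _ _), RCLike.norm_conj]
      by_cases hz : w n k ω = 0
      · rw [hz]
        simp
      · have h3 := dd_sub_dk hF hL hβ hw hjn hz
        rw [← hC₄] at h3
        have hw0 := hw.w0 n k ω
        calc w n k ω * ‖del b X Xh Ψ F D n k ω‖ * ‖dd b X Xh Ψ F D L w j ω - dk b Xh Ψ F D L w j k ω‖ ≤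
              w n k ω * 2 * C₄ := by
              gcongr
              exact del_norm hF X n k ω
          _ = _ := by ring
    have hi₂ : Integrable f₂ μ := integrable_bdd hf₂m (C := 2 * C₄ * 1) fun ω =>
      (hf₂b ω).trans (mul_le_mul_of_nonneg_left (hw.le_one hk ω) (by positivity))
    have hi₃ : Integrable (fun ω => ((w n k ω : ℝ) : ℂ) * ((starRingEnd ℂ) (dk b Xh Ψ F D L w j k ω) *
        del b X Xh Ψ F D n k ω)) μ := integrable_bdd
      ((Complex.measurable_ofReal.comp (hmw k)).mul ((hconj.comp hdkm').mul (del_meas hF hL.hFm hL.hDm n k)))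
      (C := 1 * (2 * 2)) fun ω => by
        rw [norm_mul, norm_mul, Complex.norm_real, Real.norm_eq_abs, abs_of_nonneg (hw.w0 _ _ _), RCLike.norm_conj]
        apply mul_le_mul (hw.le_one hk ω) _ (by positivity) zero_le_one
        exact mul_le_mul (dk_norm hF hw j k ω) (del_norm hF X n k ω) (norm_nonneg _) zero_le_two
    have h4 : ∀ ω, ((w n k ω : ℝ) : ℂ) * del b X Xh Ψ F D n k ω * (starRingEnd ℂ) (dd b X Xh Ψ F D L w j ω) =
        ((w n k ω : ℝ) : ℂ) * ((starRingEnd ℂ) (dk b Xh Ψ F D L w j k ω) * del b X Xh Ψ F D n k ω) + f₂ ω := by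
      intro ω
      rw [hf₂]
      simp only
      rw [map_sub]
      ring
    rw [integral_congr_ae (Eventually.of_forall h4), integral_add hi₃ hi₂]
    refine (norm_add_le _ _).trans ?_
    have h5 := (norm_integral_le_of_norm_le ((hiw k hk).const_mul _) (Eventually.of_forall hf₂b))
    rw [integral_const_mul] at h5
    rw [add_mul]
    exact add_le_add h2 h5
  have h6 : ∀ ω, dd b X Xh Ψ F D L w n ω * (starRingEnd ℂ) (dd b X Xh Ψ F D L w j ω) =
      ∑ k ∈ range (L n + 1), ((w n k ω : ℝ) : ℂ) * del b X Xh Ψ F D n k ω * (starRingEnd ℂ) (dd b X Xh Ψ F D L w j ω) := by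
    intro ω
    rw [← sum_mul]
    rfl
  rw [integral_congr_ae (Eventually.of_forall h6), integral_finset_sum _ fun k hk => ?_]
  · refine (norm_sum_le _ _).trans ((sum_le_sum h1).trans ?_)
    rw [← mul_sum, ← integral_finset_sum _ hiw]
    have h7 : ∫ ω, ∑ k ∈ range (L n + 1), w n k ω ∂μ ≤ 1 := by
      have h8 : ∫ ω, ∑ k ∈ range (L n + 1), w n k ω ∂μ ≤ ∫ ω, (1 : ℝ) ∂μ :=
        integral_mono (integrable_finset_sum _ hiw) (integrable_const _) fun ω => hw.w1 n ω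
      simpa using h8
    have h9 : 0 ≤ 4 * Real.pi * (K * θ ^ n) + 2 * C₄ := by
      have := mul_nonneg hL.hK (pow_nonneg hL.hθ0.le n)
      positivity
    calc (4 * Real.pi * (K * θ ^ n) + 2 * C₄) * ∫ ω, ∑ k ∈ range (L n + 1), w n k ω ∂μ ≤
          (4 * Real.pi * (K * θ ^ n) + 2 * C₄) * 1 := mul_le_mul_of_nonneg_left h7 h9
      _ = _ := mul_one _
  · refine integrable_bdd (((Complex.measurable_ofReal.comp (hmw k)).mul (del_meas hF hL.hFm hL.hDm n k)).mul (hconj.comp hmd))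
      (C := 1 * 2 * 2) fun ω => ?_
    rw [norm_mul, norm_mul, Complex.norm_real, Real.norm_eq_abs, abs_of_nonneg (hw.w0 _ _ _), RCLike.norm_conj]
    apply mul_le_mul _ (dd_norm hF hw j ω) (norm_nonneg _) (by norm_num)
    exact mul_le_mul (hw.le_one hk ω) (del_norm hF X n k ω) (norm_nonneg _) zero_le_one

end Pool.Agent.Helper46.HQ
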