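import Mathlib
import Pool.Agent.Helper59.RE.Exp

/-!
# Random numbers revealed along a filtration: definitions

`X = Xh k + Z k / b ^ k`, where `Xh k` is known at time `k`, and `Ψ k ω t` is the characteristic
function of `Z k` given the past of time `k`.
-/

set_option autoImplicit false

namespace Pool.Agent.Helper46.HQ

open Finset MeasureTheory ProbabilityTheory Filter Topology
open Pool.Agent.Helper59.RE (e norm_e e_add e_sub conj_e continuous_e e_zero norm_e_sub)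

/-- a random number revealed along a filtration -/
structure Flt {Ω : Type*} [mΩ : MeasurableSpace Ω] (μ : Measure Ω) (b A : ℝ) (m : ℕ → MeasurableSpace Ω)
    (X : Ω → ℝ) (Xh Z : ℕ → Ω → ℝ) (Ψ : ℕ → Ω → ℝ → ℂ) : Prop where
  hb : 1 < b
  hA : 0 ≤ A
  mono : Monotone m
  le : ∀ k, m k ≤ mΩ
  hXh : ∀ k, Measurable[m k] (Xh k)
  hZ : ∀ k, Measurable (Z k)
  eq : ∀ k ω, X ω = Xh k ω + Z k ω / b ^ k
  hZA : ∀ k ω, |Z k ω| ≤ A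
  hΨm : ∀ k (t : Ω → ℝ), Measurable[m k] t → Measurable[m k] fun ω => Ψ k ω (t ω)
  hΨ1 : ∀ k ω t, ‖Ψ k ω t‖ ≤ 1
  hΨL : ∀ k ω t t', ‖Ψ k ω t - Ψ k ω t'‖ ≤ 2 * Real.pi * A * |t - t'|
  hΨs : ∀ k ω t, ‖Ψ k ω (-t)‖ = ‖Ψ k ω t‖
  key : ∀ k (g : Ω → ℂ) (t : Ω → ℝ), Measurable[m k] g → Measurable[m k] t → (∀ ω, ‖g ω‖ ≤ 2) →
    ∫ ω, g ω * e (t ω * Z k ω) ∂μ = ∫ ω, g ω * Ψ k ω (t ω) ∂μ

/-- functions with slopes `D n` on `[u, v]`, at the scale `b ^ (-Kn n)` -/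
structure Loc (b A u v : ℝ) (F D : ℕ → ℝ → ℝ) (Kn L : ℕ → ℕ) (κ : ℕ → ℝ) (K θ : ℝ) : Prop where
  hK : 0 ≤ K
  hθ0 : 0 < θ
  hθ1 : θ < 1
  hFm : ∀ n, Measurable (F n)
  hDm : ∀ n, Measurable (D n)
  hKn : Monotone Kn
  hκ0 : ∀ n, 0 ≤ κ n
  hκ : ∀ n, κ n * (2 * A / b ^ Kn n) ≤ K * θ ^ n
  hup : ∀ n, ∀ x ∈ Set.Icc u v, |D n x| ≤ b ^ L n
  hD : ∀ n, ∀ x ∈ Set.Icc u v, ∀ y ∈ Set.Icc u v, |x - y| ≤ 2 * A / b ^ Kn n → |D n x - D n y| ≤ 2 * κ n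
  hF : ∀ n, ∀ x ∈ Set.Icc u v, ∀ y ∈ Set.Icc u v, |x - y| ≤ 2 * A / b ^ Kn n →
    |F n y - F n x - D n x * (y - x)| ≤ κ n * |y - x|

/-- the event, known at time `Kn n`, that `F n` is well behaved near the random number -/
structure Safe {Ω : Type*} (b A u v : ℝ) (Xh : ℕ → Ω → ℝ) (D : ℕ → ℝ → ℝ) (Kn : ℕ → ℕ) (κ : ℕ → ℝ) (C₀ n₀ : ℕ) (β₁ : ℝ)
    (n : ℕ) (ω : Ω) : Prop where
  s0 : n₀ ≤ n
  s1 : Xh (Kn n) ω ∈ Set.Icc (u + 2 * A / b ^ Kn n) (v - 2 * A / b ^ Kn n)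
  s2 : b ^ (Kn n + C₀ + 2) ≤ |D n (Xh (Kn n) ω)|
  s3 : 8 * κ n ≤ |D n (Xh (Kn n) ω)|
  s4 : ∀ j, n₀ ≤ j → j < n → β₁ ^ (n - j) * |D j (Xh (Kn n) ω)| ≤ 4 * |D n (Xh (Kn n) ω)|

end Pool.Agent.Helper46.HQ
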