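import Pool.Agent.Helper46.HQ.Point
import Pool.Agent.Helper32.HP.Base

/-!
# Stationary expansions: the data for the law of large numbers
-/

set_option autoImplicit false

namespace Pool.Agent.Helper46.HQ

open Finset MeasureTheory ProbabilityTheory Filter Topology
open Pool.Agent.Helper59.RE (e norm_e e_add e_sub conj_e continuous_e e_zero norm_e_sub)
open Pool.Agent.Helper32.HP

section sys

variable {Ω : Type*} [MeasurableSpace Ω] {μ : Measure Ω} {b C : ℝ} {T : Ω ≃ᵐ Ω} {ξ : Ω → ℝ}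

theorem flt_of_sys (hS : Sys μ b C T ξ) [IsProbabilityMeasure μ] : Flt μ b (BB b C) (GG T ξ) (XX b T ξ) (Xs b T ξ)
    (fun k ω => XX b T ξ (T^[k] ω)) (fun k ω t => psi μ b C T ξ (past T ξ (T^[k] ω)) t) where
  hb := hS.hb
  hA := BB_nonneg hS
  mono := fun j k h => GG_mono T ξ h
  le := GG_le hS
  hXh := fun k => Xs_meas b T ξ le_rfl
  hZ := fun k => (measurable_XX hS).comp (T.measurable.iterate k)
  eq := fun k ω => XX_split hS k ω
  hZA := fun k ω => XX_abs hS _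
  hΨm := fun k t ht => psi_meas.comp ((past_meas T ξ le_rfl).prodMk ht)
  hΨ1 := fun k ω t => psi_norm _ _
  hΨL := fun k ω t t' => psi_lip hS _ _ _
  hΨs := fun k ω t => psi_neg _ _
  key := fun k g t hg ht h2 => base_G hS k g hg 2 h2 t ht

end sys

/-- the modulus of continuity of the slopes -/
noncomputable def kp (b A δ K B₂ c₀ : ℝ) (n : ℕ) : ℝ := K * B₂ ^ n * (2 * A / b ^ ⌊c₀ * (n : ℝ)⌋₊) ^ δ

section det

variable {b A u v δ K B₂ c₀ : ℝ} {F Df : ℕ → ℝ → ℝ}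

theorem floor_bound (hb : 1 < b) (hA : 0 ≤ A) (hc₀ : 0 < c₀) (n : ℕ) :
    2 * A / b ^ ⌊c₀ * (n : ℝ)⌋₊ ≤ 2 * A * b * (b ^ (-c₀)) ^ n := by
  have hb0 : 0 < b := by linarith
  have h1 : b ^ (c₀ * (n : ℝ) - 1) ≤ b ^ ⌊c₀ * (n : ℝ)⌋₊ := by
    rw [← Real.rpow_natCast b ⌊c₀ * (n : ℝ)⌋₊]
    exact Real.rpow_le_rpow_of_exponent_le hb.le (Nat.sub_one_lt_floor _).le
  have h2 : b ^ (c₀ * (n : ℝ) - 1) * (b * (b ^ (-c₀)) ^ n) = 1 := by
    rw [Real.rpow_sub hb0, Real.rpow_one, ← Real.rpow_natCast (b ^ (-c₀)) n, ← Real.rpow_mul hb0.le, neg_mul, Real.rpow_neg hb0.le]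
    have : b ^ (c₀ * (n : ℝ)) ≠ 0 := (Real.rpow_pos_of_pos hb0 _).ne'
    field_simp
  have h3 : 0 < b * (b ^ (-c₀)) ^ n := by positivity
  rw [div_le_iff₀ (pow_pos hb0 _)]
  calc 2 * A = 2 * A * (b ^ (c₀ * (n : ℝ) - 1) * (b * (b ^ (-c₀)) ^ n)) := by rw [h2, mul_one]
    _ ≤ 2 * A * (b ^ ⌊c₀ * (n : ℝ)⌋₊ * (b * (b ^ (-c₀)) ^ n)) := by gcongr
    _ = _ := by ring

theorem kp_nonneg (hb : 1 < b) (hA : 0 ≤ A) (hK : 0 ≤ K) (hB : 1 ≤ B₂) (n : ℕ) : 0 ≤ kp b A δ K B₂ c₀ n := by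
  have hb0 : 0 < b := by linarith
  unfold kp
  positivity

theorem pow_rpow_comm {x : ℝ} (hx : 0 ≤ x) {δ : ℝ} (n : ℕ) : (x ^ n) ^ δ = (x ^ δ) ^ n := by
  rw [← Real.rpow_natCast x n, ← Real.rpow_natCast (x ^ δ) n, ← Real.rpow_mul hx, ← Real.rpow_mul hx, mul_comm]

theorem kp_bound (hb : 1 < b) (hA : 0 ≤ A) (hδ : 0 < δ) (hK : 0 ≤ K) (hB : 1 ≤ B₂) (hc₀ : 0 < c₀) (n : ℕ) :
    kp b A δ K B₂ c₀ n ≤ K * (2 * A * b) ^ δ * (B₂ * (b ^ (-c₀)) ^ δ) ^ n := by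
  have hb0 : 0 < b := by linarith
  unfold kp
  have h1 := Real.rpow_le_rpow (by positivity) (floor_bound hb hA hc₀ n) hδ.le
  calc K * B₂ ^ n * (2 * A / b ^ ⌊c₀ * (n : ℝ)⌋₊) ^ δ ≤ K * B₂ ^ n * (2 * A * b * (b ^ (-c₀)) ^ n) ^ δ := by gcongr
    _ = K * B₂ ^ n * ((2 * A * b) ^ δ * ((b ^ (-c₀)) ^ δ) ^ n) := by
      rw [Real.mul_rpow (by positivity) (by positivity)]
      congr 2
      exact pow_rpow_comm (by positivity) n
    _ = _ := by
      rw [mul_pow]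
      ring

theorem kp_bound' (hb : 1 < b) (hA : 0 ≤ A) (hδ : 0 < δ) (hK : 0 ≤ K) (hB : 1 ≤ B₂) (hc₀ : 0 < c₀) (n : ℕ) :
    kp b A δ K B₂ c₀ n * (2 * A / b ^ ⌊c₀ * (n : ℝ)⌋₊) ≤
      K * (2 * A * b) ^ (δ + 1) * (B₂ * (b ^ (-c₀)) ^ (δ + 1)) ^ n := by
  have h1 := kp_bound (K := K) hb hA (by linarith : 0 < δ + 1) hK hB hc₀ n
  refine le_trans (le_of_eq ?_) h1
  have hb0 : 0 < b := by linarith
  unfold kp
  rw [Real.rpow_add_of_nonneg (by positivity) hδ.le zero_le_one, Real.rpow_one]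
  ring

theorem D_close (hb : 1 < b) (hA : 0 ≤ A) (hδ : 0 < δ) (hK : 0 ≤ K) (hB : 1 ≤ B₂)
    (hlin : ∀ (n : ℕ) (x y : ℝ), x ∈ Set.Icc u v → y ∈ Set.Icc u v →
      |F n y - F n x - Df n x * (y - x)| ≤ K * B₂ ^ n * |y - x| ^ (1 + δ)) (n : ℕ) (x y : ℝ) (hx : x ∈ Set.Icc u v)
    (hy : y ∈ Set.Icc u v) : |Df n x - Df n y| ≤ 2 * (K * B₂ ^ n * |x - y| ^ δ) := by
  rcases eq_or_ne x y with rfl | hne
  · rw [sub_self, abs_zero]
    have : 0 ≤ |x - x| ^ δ := Real.rpow_nonneg (abs_nonneg _) _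
    positivity
  have h1 := hlin n x y hx hy
  have h2 := hlin n y x hy hx
  rw [abs_sub_comm x y] at h2
  have hpos : 0 < |y - x| := abs_pos.2 (sub_ne_zero.2 hne.symm)
  have h3 : |Df n x - Df n y| * |y - x| ≤ 2 * (K * B₂ ^ n * |y - x| ^ (1 + δ)) := by
    rw [← abs_mul]
    have h4 : (Df n x - Df n y) * (y - x) = -((F n y - F n x - Df n x * (y - x)) + (F n x - F n y - Df n y * (x - y))) := by ring
    rw [h4, abs_neg]
    refine (abs_add_le _ _).trans ?_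
    linarith
  rw [Real.rpow_add hpos, Real.rpow_one] at h3
  rw [abs_sub_comm x y]
  have h5 : |Df n x - Df n y| * |y - x| ≤ 2 * (K * B₂ ^ n * |y - x| ^ δ) * |y - x| := by
    refine h3.trans (le_of_eq ?_)
    ring
  exact le_of_mul_le_mul_right h5 hpos

theorem D_close' (hb : 1 < b) (hA : 0 ≤ A) (hδ : 0 < δ) (hK : 0 ≤ K) (hB : 1 ≤ B₂)
    (hlin : ∀ (n : ℕ) (x y : ℝ), x ∈ Set.Icc u v → y ∈ Set.Icc u v →
      |F n y - F n x - Df n x * (y - x)| ≤ K * B₂ ^ n * |y - x| ^ (1 + δ)) (n : ℕ) (x y : ℝ) (hx : x ∈ Set.Icc u v)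
    (hy : y ∈ Set.Icc u v) (hxy : |x - y| ≤ 2 * A / b ^ ⌊c₀ * (n : ℝ)⌋₊) : |Df n x - Df n y| ≤ 2 * kp b A δ K B₂ c₀ n := by
  refine (D_close hb hA hδ hK hB hlin n x y hx hy).trans ?_
  unfold kp
  have := Real.rpow_le_rpow (abs_nonneg _) hxy hδ.le
  gcongr

/-- the local data -/
theorem loc_of_lin (hb : 1 < b) (hA : 0 ≤ A) (hF : ∀ n, Measurable (F n)) (hDf : ∀ n, Measurable (Df n)) (hδ : 0 < δ)
    (hK : 0 ≤ K) (hB : 1 ≤ B₂) (hc₀ : 0 < c₀)
    (hlin : ∀ (n : ℕ) (x y : ℝ), x ∈ Set.Icc u v → y ∈ Set.Icc u v →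
      |F n y - F n x - Df n x * (y - x)| ≤ K * B₂ ^ n * |y - x| ^ (1 + δ))
    (h1 : Real.log B₂ < (1 + δ) * c₀ * Real.log b) (a : ℕ → ℕ) (ha : StrictMono a) (c : ℕ → ℝ) :
    ∃ (L : ℕ → ℕ) (K' θ : ℝ), Loc b A u v (fun i x => F (a i) x + c i) (fun i => Df (a i)) (fun i => ⌊c₀ * (a i : ℝ)⌋₊) L
      (fun i => kp b A δ K B₂ c₀ (a i)) K' θ := by
  have hb0 : 0 < b := by linarith
  have h2 : ∀ n : ℕ, ∃ l : ℕ, |Df n u| + 2 * (K * B₂ ^ n * |u - v| ^ δ) ≤ b ^ l := fun n => by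
    obtain ⟨l, hl⟩ := pow_unbounded_of_one_lt (|Df n u| + 2 * (K * B₂ ^ n * |u - v| ^ δ)) hb
    exact ⟨l, hl.le⟩
  choose L hL using h2
  have hθ0 : 0 < B₂ * (b ^ (-c₀)) ^ (δ + 1) := by positivity
  have hθ1 : B₂ * (b ^ (-c₀)) ^ (δ + 1) < 1 := by
    rw [← Real.log_neg_iff hθ0, Real.log_mul (by positivity) (by positivity), Real.log_rpow (by positivity), Real.log_rpow hb0]
    linarith
  refine ⟨fun i => L (a i), K * (2 * A * b) ^ (δ + 1), B₂ * (b ^ (-c₀)) ^ (δ + 1), ?_⟩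
  refine ⟨by positivity, hθ0, hθ1, fun i => (hF _).add_const _, fun i => hDf _, fun i j hij => ?_, fun i => kp_nonneg hb hA hK hB _,
    fun i => ?_, fun i x hx => ?_, fun i x hx y hy hxy => D_close' hb hA hδ hK hB hlin _ x y hx hy hxy,
    fun i x hx y hy hxy => ?_⟩
  · apply Nat.floor_mono
    have : (a i : ℝ) ≤ a j := by exact_mod_cast ha.monotone hij
    gcongr
  · refine (kp_bound' hb hA hδ hK hB hc₀ (a i)).trans ?_
    apply mul_le_mul_of_nonneg_left _ (by positivity)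
    exact pow_le_pow_of_le_one hθ0.le hθ1.le (ha.id_le i)
  · have hu : u ∈ Set.Icc u v := ⟨le_rfl, hx.1.trans hx.2⟩
    have h3 := D_close hb hA hδ hK hB hlin (a i) u x hu hx
    have h4 : |u - x| ≤ |u - v| := by
      rw [abs_sub_comm u x, abs_sub_comm u v, abs_of_nonneg (by linarith [hx.1]), abs_of_nonneg (by linarith [hx.1, hx.2])]
      linarith [hx.2]
    have h5 := Real.rpow_le_rpow (abs_nonneg _) h4 hδ.le
    refine le_trans ?_ (hL (a i))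
    have h6 : |Df (a i) x| ≤ |Df (a i) u| + |Df (a i) u - Df (a i) x| := by
      have := abs_sub (Df (a i) u) (Df (a i) u - Df (a i) x)
      rwa [sub_sub_cancel] at this
    refine h6.trans (add_le_add le_rfl (h3.trans ?_))
    gcongr
  · have h3 := hlin (a i) x y hx hy
    have h4 : F (a i) y + c i - (F (a i) x + c i) - Df (a i) x * (y - x) = F (a i) y - F (a i) x - Df (a i) x * (y - x) := by ring
    rw [h4]
    refine h3.trans ?_
    rw [abs_sub_comm] at hxy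
    rw [add_comm (1 : ℝ) δ, Real.rpow_add_of_nonneg (abs_nonneg _) hδ.le zero_le_one, Real.rpow_one]
    unfold kp
    have h5 := Real.rpow_le_rpow (abs_nonneg _) hxy hδ.le
    calc K * B₂ ^ a i * (|y - x| ^ δ * |y - x|) = K * B₂ ^ a i * |y - x| ^ δ * |y - x| := by ring
      _ ≤ _ := by gcongr

end det

/-- growth -/
theorem growth {ℓ : ℕ → ℝ} {l : ℝ} (h : Tendsto (fun n => ℓ (n + 1) - ℓ n) atTop (𝓝 l)) {l' : ℝ} (hl : l' < l) :
    ∃ n₁ : ℕ, ∀ j n, n₁ ≤ j → j ≤ n → ((n : ℝ) - j) * l' ≤ ℓ n - ℓ j := by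
  obtain ⟨n₁, hn₁⟩ := (h.eventually (lt_mem_nhds hl)).exists_forall_of_atTop
  refine ⟨n₁, fun j n hj hjn => ?_⟩
  induction n, hjn using Nat.le_induction with
  | base => simp
  | succ n hn ih =>
    have h1 := hn₁ n (hj.trans hn)
    push_cast
    linarith

/-- exponential growth against exponential growth -/
theorem ratio_small {D : ℕ → ℝ} {β r C : ℝ} (hr : 0 ≤ r) (hr' : r = 0 ∨ Real.log r < Real.log β) (hD : ∀ᶠ n in atTop, D n ≠ 0)
    (h : Tendsto (fun n => Real.log |D (n + 1)| - Real.log |D n|) atTop (𝓝 (Real.log β))) :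
    Tendsto (fun n : ℕ => C * r ^ n / |D n|) atTop (𝓝 0) := by
  rcases hr' with h0 | hlt
  · refine tendsto_const_nhds.congr' ?_
    filter_upwards [eventually_ge_atTop 1] with n hn
    rw [h0, zero_pow (by omega), mul_zero, zero_div]
  rcases hr.eq_or_lt with h0 | hr0
  · refine tendsto_const_nhds.congr' ?_
    filter_upwards [eventually_ge_atTop 1] with n hn
    rw [← h0, zero_pow (by omega), mul_zero, zero_div]
  obtain ⟨l', hl1, hl2⟩ := exists_between hlt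
  obtain ⟨n₁, hn₁⟩ := growth (ℓ := fun n => Real.log |D n|) h hl2
  obtain ⟨n₂, hn₂⟩ := hD.exists_forall_of_atTop
  obtain ⟨n₃, hn₃⟩ : ∃ n₃, n₃ = max n₁ n₂ := ⟨_, rfl⟩
  have h3 : ∀ n, n₃ ≤ n → Real.exp (Real.log |D n₃| - n₃ * l') * Real.exp l' ^ n ≤ |D n| := by
    intro n hn
    have h4 := hn₁ n₃ n (by rw [hn₃]; exact le_max_left _ _) hn
    have h5 : |D n| = Real.exp (Real.log |D n|) := (Real.exp_log (abs_pos.2 (hn₂ n (le_trans (by rw [hn₃]; exact le_max_right _ _) hn)))).symm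
    rw [h5, ← Real.exp_nat_mul, ← Real.exp_add]
    apply Real.exp_le_exp.2
    linarith
  have h6 : Tendsto (fun n : ℕ => |C| / Real.exp (Real.log |D n₃| - n₃ * l') * (r / Real.exp l') ^ n) atTop (𝓝 0) := by
    have h7 : Tendsto (fun n : ℕ => (r / Real.exp l') ^ n) atTop (𝓝 0) := by
      apply tendsto_pow_atTop_nhds_zero_of_lt_one (by positivity)
      rw [div_lt_one (Real.exp_pos _)]
      exact (Real.log_lt_iff_lt_exp hr0).1 hl1
    have := h7.const_mul (|C| / Real.exp (Real.log |D n₃| - n₃ * l'))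
    rwa [mul_zero] at this
  refine squeeze_zero_norm' ?_ h6
  filter_upwards [eventually_ge_atTop n₃] with n hn
  have h8 := h3 n hn
  rw [Real.norm_eq_abs, abs_div, abs_abs, abs_mul, abs_of_nonneg (pow_nonneg hr n), div_pow]
  have h9 : 0 < Real.exp (Real.log |D n₃| - n₃ * l') * Real.exp l' ^ n := by positivity
  calc |C| * r ^ n / |D n| ≤ |C| * r ^ n / (Real.exp (Real.log |D n₃| - n₃ * l') * Real.exp l' ^ n) := by gcongr
    _ = _ := by
      field_simp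

end Pool.Agent.Helper46.HQ
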