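import Pool.Agent.Helper46.HQ.Defs

/-!
# Random numbers revealed along a filtration: the martingale-like differences and their correlations
-/

set_option autoImplicit false

namespace Pool.Agent.Helper46.HQ

open Finset MeasureTheory ProbabilityTheory Filter Topology
open Pool.Agent.Helper59.RE (e norm_e e_add e_sub conj_e continuous_e e_zero norm_e_sub)

variable {Ω : Type*} [mΩ : MeasurableSpace Ω] {μ : Measure Ω} [IsProbabilityMeasure μ] {b A : ℝ}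
    {m : ℕ → MeasurableSpace Ω} {X : Ω → ℝ} {Xh Z : ℕ → Ω → ℝ} {Ψ : ℕ → Ω → ℝ → ℂ} {u v : ℝ} {F D : ℕ → ℝ → ℝ}
    {Kn L : ℕ → ℕ} {κ : ℕ → ℝ} {C₀ n₀ : ℕ} {β₁ K θ : ℝ} {w : ℕ → ℕ → Ω → ℝ}

/-- weights -/
structure Wgt (b A : ℝ) (m : ℕ → MeasurableSpace Ω) (Xh : ℕ → Ω → ℝ) (u v : ℝ) (D : ℕ → ℝ → ℝ) (Kn L : ℕ → ℕ)
    (κ : ℕ → ℝ) (C₀ n₀ : ℕ) (β₁ : ℝ) (w : ℕ → ℕ → Ω → ℝ) : Prop where
  w0 : ∀ n k ω, 0 ≤ w n k ω
  w1 : ∀ n ω, ∑ k ∈ range (L n + 1), w n k ω ≤ 1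
  wm : ∀ n k, Measurable[m k] (w n k)
  ws : ∀ n k ω, w n k ω ≠ 0 → Safe b A u v Xh D Kn κ C₀ n₀ β₁ n ω ∧
    b ^ (C₀ + k) < |D n (Xh (Kn n) ω)| ∧ |D n (Xh (Kn n) ω)| < b ^ (C₀ + k + 2)

/-- the difference between the exponential and its conditional mean -/
noncomputable def del (b : ℝ) (X : Ω → ℝ) (Xh : ℕ → Ω → ℝ) (Ψ : ℕ → Ω → ℝ → ℂ) (F D : ℕ → ℝ → ℝ) (n k : ℕ) (ω : Ω) : ℂ :=
  e (F n (X ω)) - e (F n (Xh k ω)) * Ψ k ω (D n (Xh k ω) / b ^ k)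

/-- the differences -/
noncomputable def dd (b : ℝ) (X : Ω → ℝ) (Xh : ℕ → Ω → ℝ) (Ψ : ℕ → Ω → ℝ → ℂ) (F D : ℕ → ℝ → ℝ) (L : ℕ → ℕ) (w : ℕ → ℕ → Ω → ℝ)
    (n : ℕ) (ω : Ω) : ℂ :=
  ∑ k ∈ range (L n + 1), ((w n k ω : ℝ) : ℂ) * del b X Xh Ψ F D n k ω

/-- the differences, as known at time `k` -/
noncomputable def dk (b : ℝ) (Xh : ℕ → Ω → ℝ) (Ψ : ℕ → Ω → ℝ → ℂ) (F D : ℕ → ℝ → ℝ) (L : ℕ → ℕ) (w : ℕ → ℕ → Ω → ℝ)
    (n k : ℕ) (ω : Ω) : ℂ :=
  ∑ k' ∈ range (L n + 1), if k' ≤ k then ((w n k' ω : ℝ) : ℂ) * del b (Xh k) Xh Ψ F D n k' ω else 0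

theorem Flt.near (hF : Flt μ b A m X Xh Z Ψ) (k : ℕ) (ω : Ω) : |X ω - Xh k ω| ≤ A / b ^ k := by
  have hb := hF.hb
  have hbk : 0 < b ^ k := pow_pos (by linarith) k
  rw [hF.eq k ω, add_sub_cancel_left, abs_div, abs_of_pos hbk]
  exact div_le_div_of_nonneg_right (hF.hZA k ω) hbk.le

theorem Flt.near' (hF : Flt μ b A m X Xh Z Ψ) {j k : ℕ} (hjk : j ≤ k) (ω : Ω) : |Xh k ω - Xh j ω| ≤ 2 * A / b ^ j := by
  have hb := hF.hb
  have hbj : 0 < b ^ j := pow_pos (by linarith) j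
  have h1 := hF.near k ω
  have h2 := hF.near j ω
  have h3 : A / b ^ k ≤ A / b ^ j :=
    div_le_div_of_nonneg_left hF.hA hbj (pow_le_pow_right₀ hb.le hjk)
  have h4 : Xh k ω - Xh j ω = (X ω - Xh j ω) - (X ω - Xh k ω) := by ring
  rw [h4, two_mul, add_div]
  refine (abs_sub _ _).trans ?_
  linarith

theorem Flt.near'' (hF : Flt μ b A m X Xh Z Ψ) {j k : ℕ} (hjk : j ≤ k) (ω : Ω) : |X ω - Xh k ω| ≤ 2 * A / b ^ j := by
  have hb := hF.hb
  have hbj : 0 < b ^ j := pow_pos (by linarith) j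
  have h1 := hF.near k ω
  have h3 : A / b ^ k ≤ A / b ^ j :=
    div_le_div_of_nonneg_left hF.hA hbj (pow_le_pow_right₀ hb.le hjk)
  have h5 : 0 ≤ A / b ^ j := div_nonneg hF.hA hbj.le
  rw [two_mul, add_div]
  linarith

theorem Flt.mXh (hF : Flt μ b A m X Xh Z Ψ) (k : ℕ) : Measurable (Xh k) := (hF.hXh k).mono (hF.le k) le_rfl

theorem Flt.mX (hF : Flt μ b A m X Xh Z Ψ) : Measurable X := by
  have : X = fun ω => Xh 0 ω + Z 0 ω / b ^ 0 := funext fun ω => hF.eq 0 ω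
  rw [this]
  exact (hF.mXh 0).add ((hF.hZ 0).div_const _)

theorem Flt.mPsi (hF : Flt μ b A m X Xh Z Ψ) (hDm : ∀ n, Measurable (D n)) (n k : ℕ) :
    Measurable[m k] fun ω => Ψ k ω (D n (Xh k ω) / b ^ k) :=
  hF.hΨm k _ (((hDm n).comp (hF.hXh k)).div_const _)

theorem Flt.mPsi' (hF : Flt μ b A m X Xh Z Ψ) (hDm : ∀ n, Measurable (D n)) (n k : ℕ) :
    Measurable fun ω => Ψ k ω (D n (Xh k ω) / b ^ k) := (hF.mPsi hDm n k).mono (hF.le k) le_rfl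

theorem del_norm (hF : Flt μ b A m X Xh Z Ψ) (Y : Ω → ℝ) (n k : ℕ) (ω : Ω) : ‖del b Y Xh Ψ F D n k ω‖ ≤ 2 := by
  unfold del
  refine (norm_sub_le _ _).trans ?_
  rw [norm_mul, norm_e, norm_e, one_mul]
  linarith [hF.hΨ1 k ω (D n (Xh k ω) / b ^ k)]

theorem del_meas (hF : Flt μ b A m X Xh Z Ψ) (hFm : ∀ n, Measurable (F n)) (hDm : ∀ n, Measurable (D n)) (n k : ℕ) :
    Measurable (del b X Xh Ψ F D n k) := by
  unfold del
  exact (continuous_e.measurable.comp ((hFm n).comp hF.mX)).sub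
    ((continuous_e.measurable.comp ((hFm n).comp (hF.mXh k))).mul (hF.mPsi' hDm n k))

theorem dd_norm (hF : Flt μ b A m X Xh Z Ψ) (hw : Wgt b A m Xh u v D Kn L κ C₀ n₀ β₁ w) (n : ℕ) (ω : Ω) :
    ‖dd b X Xh Ψ F D L w n ω‖ ≤ 2 := by
  unfold dd
  refine (norm_sum_le _ _).trans ?_
  have h1 : ∀ k ∈ range (L n + 1), ‖((w n k ω : ℝ) : ℂ) * del b X Xh Ψ F D n k ω‖ ≤ 2 * w n k ω := by
    intro k _
    rw [norm_mul, Complex.norm_real, Real.norm_eq_abs, abs_of_nonneg (hw.w0 _ _ _), mul_comm]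
    exact mul_le_mul_of_nonneg_right (del_norm hF X n k ω) (hw.w0 _ _ _)
  refine (sum_le_sum h1).trans ?_
  rw [← mul_sum]
  linarith [hw.w1 n ω]

theorem dd_meas (hF : Flt μ b A m X Xh Z Ψ) (hw : Wgt b A m Xh u v D Kn L κ C₀ n₀ β₁ w) (hFm : ∀ n, Measurable (F n))
    (hDm : ∀ n, Measurable (D n)) (n : ℕ) : Measurable (dd b X Xh Ψ F D L w n) := by
  unfold dd
  exact Finset.measurable_fun_sum _ fun k _ =>
    (Complex.measurable_ofReal.comp ((hw.wm n k).mono (hF.le k) le_rfl)).mul (del_meas hF hFm hDm n k)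

theorem dk_norm (hF : Flt μ b A m X Xh Z Ψ) (hw : Wgt b A m Xh u v D Kn L κ C₀ n₀ β₁ w) (n k : ℕ) (ω : Ω) :
    ‖dk b Xh Ψ F D L w n k ω‖ ≤ 2 := by
  unfold dk
  refine (norm_sum_le _ _).trans ?_
  have h1 : ∀ k' ∈ range (L n + 1), ‖(if k' ≤ k then ((w n k' ω : ℝ) : ℂ) * del b (Xh k) Xh Ψ F D n k' ω else 0)‖ ≤ 2 * w n k' ω := by
    intro k' _
    split_ifs
    · rw [norm_mul, Complex.norm_real, Real.norm_eq_abs, abs_of_nonneg (hw.w0 _ _ _), mul_comm]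
      exact mul_le_mul_of_nonneg_right (del_norm hF (Xh k) n k' ω) (hw.w0 _ _ _)
    · rw [norm_zero]
      exact mul_nonneg zero_le_two (hw.w0 _ _ _)
  refine (sum_le_sum h1).trans ?_
  rw [← mul_sum]
  linarith [hw.w1 n ω]

theorem dk_meas (hF : Flt μ b A m X Xh Z Ψ) (hw : Wgt b A m Xh u v D Kn L κ C₀ n₀ β₁ w) (hFm : ∀ n, Measurable (F n))
    (hDm : ∀ n, Measurable (D n)) (n k : ℕ) : Measurable[m k] (dk b Xh Ψ F D L w n k) := by
  unfold dk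
  refine Finset.measurable_fun_sum _ fun k' _ => ?_
  split_ifs with h
  · have h1 := hF.mono h
    refine (Complex.measurable_ofReal.comp ((hw.wm n k').mono h1 le_rfl)).mul ?_
    unfold del
    exact (continuous_e.measurable.comp ((hFm n).comp (hF.hXh k))).sub
      ((continuous_e.measurable.comp ((hFm n).comp ((hF.hXh k').mono h1 le_rfl))).mul
        ((hF.mPsi hDm n k').mono h1 le_rfl))
  · exact measurable_const

theorem integrable_bdd {f : Ω → ℂ} (hf : Measurable f) {C : ℝ} (hC : ∀ ω, ‖f ω‖ ≤ C) : Integrable f μ :=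
  (integrable_const C).mono' hf.aestronglyMeasurable (Eventually.of_forall hC)

theorem integrable_bddR {f : Ω → ℝ} (hf : Measurable f) {C : ℝ} (hC : ∀ ω, |f ω| ≤ C) : Integrable f μ :=
  (integrable_const C).mono' hf.aestronglyMeasurable (Eventually.of_forall hC)

theorem Wgt.le_one (hw : Wgt b A m Xh u v D Kn L κ C₀ n₀ β₁ w) {n k : ℕ} (hk : k ∈ range (L n + 1)) (ω : Ω) : w n k ω ≤ 1 :=
  (single_le_sum (f := fun k => w n k ω) (fun i _ => hw.w0 n i ω) hk).trans (hw.w1 n ω)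

/-- where the weights live -/
theorem Wgt.k_ge (hF : Flt μ b A m X Xh Z Ψ) (hw : Wgt b A m Xh u v D Kn L κ C₀ n₀ β₁ w) {n k : ℕ} {ω : Ω}
    (h : w n k ω ≠ 0) : Kn n ≤ k := by
  obtain ⟨h1, h3, h4⟩ := hw.ws n k ω h
  have h6 : Kn n + C₀ + 2 < C₀ + k + 2 := (pow_lt_pow_iff_right₀ hF.hb).1 (h1.s2.trans_lt h4)
  omega

theorem safe_mem (hF : Flt μ b A m X Xh Z Ψ) {j k : ℕ} (hjk : j ≤ k) {ω : Ω}
    (h : Xh j ω ∈ Set.Icc (u + 2 * A / b ^ j) (v - 2 * A / b ^ j)) : Xh k ω ∈ Set.Icc u v := by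
  have h1 := abs_le.1 (hF.near' hjk ω)
  exact ⟨by linarith [h.1, h1.1], by linarith [h.2, h1.2]⟩

theorem safe_memX (hF : Flt μ b A m X Xh Z Ψ) {j : ℕ} {ω : Ω}
    (h : Xh j ω ∈ Set.Icc (u + 2 * A / b ^ j) (v - 2 * A / b ^ j)) : X ω ∈ Set.Icc u v := by
  have h1 := abs_le.1 (hF.near'' le_rfl (j := j) ω)
  exact ⟨by linarith [h.1, h1.1], by linarith [h.2, h1.2]⟩

/-- slopes at nearby points -/
theorem Safe.close (hF : Flt μ b A m X Xh Z Ψ) (hL : Loc b A u v F D Kn L κ K θ) {n : ℕ} {ω : Ω}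
    (h : Safe b A u v Xh D Kn κ C₀ n₀ β₁ n ω) {k : ℕ} (hk : Kn n ≤ k) :
    |(|D n (Xh k ω)| - |D n (Xh (Kn n) ω)|)| ≤ 1 / 4 * |D n (Xh (Kn n) ω)| := by
  have h1 := hL.hD n _ (safe_mem hF hk h.s1) _ (safe_mem hF le_rfl h.s1) (hF.near' hk ω)
  refine (abs_abs_sub_abs_le_abs_sub _ _).trans (h1.trans ?_)
  linarith [h.s3]

/-- the approximation of the earlier difference -/
theorem dd_sub_dk (hF : Flt μ b A m X Xh Z Ψ) (hL : Loc b A u v F D Kn L κ K θ) (hβ : 1 < β₁)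
    (hw : Wgt b A m Xh u v D Kn L κ C₀ n₀ β₁ w) {j n k : ℕ} (hjn : j < n) {ω : Ω} (h : w n k ω ≠ 0) :
    ‖dd b X Xh Ψ F D L w j ω - dk b Xh Ψ F D L w j k ω‖ ≤
      (32 * b + 32 * Real.pi * A * b ^ (C₀ + 2)) / β₁ ^ (n - j) := by
  have hb := hF.hb
  have hb0 : 0 < b := by linarith
  have hA := hF.hA
  have hβn : 0 < β₁ ^ (n - j) := pow_pos (by linarith) _
  obtain ⟨h1, h3, h4⟩ := hw.ws n k ω h
  have hk := hw.k_ge hF h
  have hKK : Kn j ≤ Kn n := hL.hKn hjn.le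
  by_cases hA1 : ∃ k' ∈ range (L j + 1), k < k' ∧ w j k' ω ≠ 0
  · obtain ⟨k', _, hkk', hwk'⟩ := hA1
    obtain ⟨g1, g3, g4⟩ := hw.ws j k' ω hwk'
    have h5 := h1.s4 j g1.s0 hjn
    have h6 := abs_le.1 (g1.close hF hL hKK)
    have h7 : b ^ (C₀ + k + 2) ≤ b * b ^ (C₀ + k') := by
      rw [← pow_succ']
      exact pow_le_pow_right₀ hb.le (by omega)
    have hpos : 0 < |D j (Xh (Kn j) ω)| := (pow_pos hb0 _).trans g3
    have h6' : |D j (Xh (Kn j) ω)| ≤ 2 * |D j (Xh (Kn n) ω)| := by linarith [h6.1]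
    have h8 : β₁ ^ (n - j) * |D j (Xh (Kn n) ω)| < 8 * b * |D j (Xh (Kn n) ω)| := by
      calc β₁ ^ (n - j) * |D j (Xh (Kn n) ω)| ≤ 4 * |D n (Xh (Kn n) ω)| := h5
        _ < 4 * (b * b ^ (C₀ + k')) := by linarith [h4.trans_le h7]
        _ ≤ 4 * (b * |D j (Xh (Kn j) ω)|) := by gcongr
        _ ≤ 4 * (b * (2 * |D j (Xh (Kn n) ω)|)) := by gcongr
        _ = _ := by ring
    have h9 : β₁ ^ (n - j) < 8 * b := lt_of_mul_lt_mul_right h8 (abs_nonneg _)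
    have h10 : ‖dd b X Xh Ψ F D L w j ω - dk b Xh Ψ F D L w j k ω‖ ≤ 4 := by
      refine (norm_sub_le _ _).trans ?_
      linarith [dd_norm (F := F) hF hw j ω, dk_norm (F := F) hF hw j k ω]
    refine h10.trans ?_
    rw [le_div_iff₀ (by positivity)]
    have h11 : 0 ≤ 32 * Real.pi * A * b ^ (C₀ + 2) := by positivity
    linarith
  · push Not at hA1
    have h5 : dd b X Xh Ψ F D L w j ω - dk b Xh Ψ F D L w j k ω =
        ∑ k' ∈ range (L j + 1), ((w j k' ω : ℝ) : ℂ) * (e (F j (X ω)) - e (F j (Xh k ω))) := by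
      unfold dd dk
      rw [← sum_sub_distrib]
      refine sum_congr rfl fun k' hk' => ?_
      split_ifs with hle
      · unfold del
        ring
      · rw [hA1 k' hk' (not_le.1 hle)]
        simp
    by_cases hz : ∃ k' ∈ range (L j + 1), w j k' ω ≠ 0
    · obtain ⟨k', hk', hwk'⟩ := hz
      obtain ⟨g1, g3, g4⟩ := hw.ws j k' ω hwk'
      have hx0 : X ω ∈ Set.Icc u v := safe_memX hF h1.s1
      have hx2 : Xh k ω ∈ Set.Icc u v := safe_mem hF hk h1.s1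
      have h6 := hL.hF j _ hx2 _ hx0 (by
        rw [abs_sub_comm]
        exact hF.near'' (hKK.trans hk) ω)
      have h7 := h1.s4 j g1.s0 hjn
      have h8 := abs_le.1 (g1.close hF hL hKK)
      have h8' := abs_le.1 (g1.close hF hL (hKK.trans hk))
      have h9 := hF.near k ω
      have hbk : 0 < b ^ k := pow_pos hb0 k
      have h13 : |F j (X ω) - F j (Xh k ω)| ≤ (|D j (Xh k ω)| + κ j) * |X ω - Xh k ω| := by
        have h14 := abs_add_le (F j (X ω) - F j (Xh k ω) - D j (Xh k ω) * (X ω - Xh k ω)) (D j (Xh k ω) * (X ω - Xh k ω))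
        rw [sub_add_cancel, abs_mul] at h14
        linarith
      have h15 : |D j (Xh k ω)| + κ j ≤ 2 * |D j (Xh (Kn n) ω)| := by
        linarith [h8.1, h8'.2, g1.s3]
      have h10 : |F j (X ω) - F j (Xh k ω)| ≤ 8 * A * b ^ (C₀ + 2) / β₁ ^ (n - j) := by
        have h11 : |D j (Xh (Kn n) ω)| ≤ 4 * b ^ (C₀ + k + 2) / β₁ ^ (n - j) := by
          rw [le_div_iff₀ (by positivity)]
          linarith
        calc |F j (X ω) - F j (Xh k ω)| ≤ (|D j (Xh k ω)| + κ j) * |X ω - Xh k ω| := h13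
          _ ≤ (2 * |D j (Xh (Kn n) ω)|) * |X ω - Xh k ω| := by gcongr
          _ ≤ (2 * (4 * b ^ (C₀ + k + 2) / β₁ ^ (n - j))) * (A / b ^ k) := by gcongr
          _ = 8 * A * b ^ (C₀ + 2) / β₁ ^ (n - j) := by
            rw [show C₀ + k + 2 = (C₀ + 2) + k by ring, pow_add b (C₀ + 2) k]
            field_simp
            ring
      rw [h5, ← sum_mul, norm_mul]
      have h12 : ‖∑ i ∈ range (L j + 1), ((w j i ω : ℝ) : ℂ)‖ ≤ 1 := by
        rw [← Complex.ofReal_sum, Complex.norm_real, Real.norm_eq_abs, abs_of_nonneg (sum_nonneg fun i _ => hw.w0 _ _ _)]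
        exact hw.w1 j ω
      calc ‖∑ i ∈ range (L j + 1), ((w j i ω : ℝ) : ℂ)‖ * ‖e (F j (X ω)) - e (F j (Xh k ω))‖ ≤
            1 * (2 * Real.pi * (8 * A * b ^ (C₀ + 2) / β₁ ^ (n - j))) := by
            apply mul_le_mul h12 _ (norm_nonneg _) zero_le_one
            refine (norm_e_sub _ _).trans ?_
            gcongr
        _ = (16 * Real.pi * A * b ^ (C₀ + 2)) / β₁ ^ (n - j) := by ring
        _ ≤ _ := by
          gcongr
          have : 0 ≤ 16 * Real.pi * A * b ^ (C₀ + 2) := by positivity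
          linarith
    · push Not at hz
      rw [h5, sum_eq_zero fun k' hk' => by rw [hz k' hk']; simp, norm_zero]
      positivity

end Pool.Agent.Helper46.HQ
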