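import Pool.Agent.Helper46.HQ.Wts
import Pool.Agent.Helper32.HP.Defs

/-!
# Random numbers revealed along a filtration: the pointwise step
-/

set_option autoImplicit false

namespace Pool.Agent.Helper46.HQ

open Finset MeasureTheory ProbabilityTheory Filter Topology
open Pool.Agent.Helper59.RE (e norm_e e_add e_sub conj_e continuous_e e_zero norm_e_sub)
open Pool.Agent.Helper32.HP (wt)

variable {Ω : Type*} [mΩ : MeasurableSpace Ω] {μ : Measure Ω} [IsProbabilityMeasure μ] {b A : ℝ}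
    {m : ℕ → MeasurableSpace Ω} {X : Ω → ℝ} {Xh Z : ℕ → Ω → ℝ} {Ψ : ℕ → Ω → ℝ → ℂ} {u v : ℝ} {F D : ℕ → ℝ → ℝ}
    {Kn L : ℕ → ℕ} {κ : ℕ → ℝ} {C₀ n₀ d : ℕ} {β₁ K θ : ℝ} {w : ℕ → ℕ → Ω → ℝ}

/-- the sum along the orbit -/
noncomputable def qv (b : ℝ) (d : ℕ) (Ψ : ℕ → Ω → ℝ → ℂ) (ω : Ω) (y : ℝ) : ℝ :=
  ∑ k ∈ range (⌊y⌋₊ + 1), wt (y - k - (d + 1)) * ‖Ψ k ω (b ^ (y - k))‖ ^ 2

theorem wt_nonneg (x : ℝ) : 0 ≤ wt x := le_max_left _ _

omit mΩ in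
theorem qv_nonneg (b : ℝ) (d : ℕ) (Ψ : ℕ → Ω → ℝ → ℂ) (ω : Ω) (y : ℝ) : 0 ≤ qv b d Ψ ω y :=
  sum_nonneg fun _ _ => mul_nonneg (wt_nonneg _) (sq_nonneg _)

/-- one depth -/
theorem point (hF : Flt μ b A m X Xh Z Ψ) {n k : ℕ} {ω : Ω} (h : Dep b A u v Xh D Kn κ d n₀ β₁ n k ω) (hk : Kn n ≤ k)
    (y : ℝ) (hy : b ^ y = |D n (X ω)|) (ε : ℝ) (hε0 : 0 ≤ ε) (hε1 : ε ≤ 1 / 2) (hεb : ε ≤ b - 1)
    (hcl : ∀ k, Kn n ≤ k → |(|D n (Xh k ω)| - |D n (X ω)|)| ≤ ε * |D n (X ω)|) :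
    ‖Ψ k ω (D n (Xh k ω) / b ^ k)‖ ^ 2 ≤ qv b d Ψ ω y + ε * (8 * Real.pi * A * b ^ (d + 2) + 2 / Real.log b) := by
  have hb := hF.hb
  have hb0 : 0 < b := by linarith
  have hlb : 0 < Real.log b := Real.log_pos hb
  have hA := hF.hA
  obtain ⟨_, h1, h2⟩ := h
  have hby : 0 < b ^ y := Real.rpow_pos_of_pos hb0 y
  have h3 := abs_le.1 (hcl (Kn n) le_rfl)
  rw [← hy] at h3
  -- the lower estimate for `y`
  have h4 : b ^ (d + k + 1) ≤ (1 + ε) * b ^ y := by linarith [h3.2]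
  have h5 : ((d : ℝ) + k + 1) * Real.log b ≤ Real.log (1 + ε) + y * Real.log b := by
    have := Real.log_le_log (pow_pos hb0 _) h4
    rw [Real.log_pow, Real.log_mul (by linarith) hby.ne', Real.log_rpow hb0] at this
    push_cast at this
    exact this
  have h6 : (1 - ε) * b ^ y ≤ b ^ (d + k + 2) := by linarith [h3.1]
  have h7 : Real.log (1 - ε) + y * Real.log b ≤ ((d : ℝ) + k + 2) * Real.log b := by
    have := Real.log_le_log (mul_pos (by linarith) hby) h6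
    rw [Real.log_pow, Real.log_mul (by linarith) hby.ne', Real.log_rpow hb0] at this
    push_cast at this
    exact this
  have h8 : Real.log (1 + ε) ≤ ε := by
    have := Real.log_le_sub_one_of_pos (by linarith : 0 < 1 + ε)
    linarith
  have h8' : Real.log (1 + ε) ≤ Real.log b := Real.log_le_log (by linarith) (by linarith)
  have h9 : -(2 * ε) ≤ Real.log (1 - ε) := by
    have h10 := Real.one_sub_inv_le_log_of_pos (by linarith : 0 < 1 - ε)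
    have h11 : (1 - ε)⁻¹ ≤ 1 + 2 * ε := by
      rw [inv_le_iff_one_le_mul₀ (by linarith)]
      nlinarith
    linarith
  have hx1 : -(ε / Real.log b) ≤ y - k - (d + 1) := by
    rw [← neg_div, div_le_iff₀ hlb]
    nlinarith
  have hx2 : y - k - (d + 1) ≤ 1 + 2 * ε / Real.log b := by
    have : (y - k - (d + 1) - 1) * Real.log b ≤ 2 * ε := by nlinarith
    rw [← le_div_iff₀ hlb] at this
    linarith
  have hε2 : ε / Real.log b ≤ 2 * ε / Real.log b := by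
    apply div_le_div_of_nonneg_right _ hlb.le
    linarith
  have hwt : 1 - 2 * ε / Real.log b ≤ wt (y - k - (d + 1)) := by
    unfold wt
    refine le_max_of_le_right (le_min ?_ (le_min ?_ ?_))
    · have : 0 ≤ 2 * ε / Real.log b := by positivity
      linarith
    · linarith
    · linarith
  have hky : (k : ℝ) ≤ y := by
    have h12 : ((d : ℝ) + k + 1) * Real.log b ≤ (1 + y) * Real.log b := by linarith
    have h13 := le_of_mul_le_mul_right h12 hlb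
    have hd : (0 : ℝ) ≤ d := Nat.cast_nonneg d
    linarith
  -- the frequency
  have hbk : 0 < b ^ k := pow_pos hb0 k
  have hyk : b ^ (y - k) = b ^ y / b ^ k := by rw [Real.rpow_sub hb0, Real.rpow_natCast]
  have h14 : b ^ (y - k) ≤ 2 * b ^ (d + 2) := by
    rw [hyk, div_le_iff₀ hbk]
    have h15 : b ^ (d + k + 2) = b ^ (d + 2) * b ^ k := by rw [← pow_add]; congr 1; ring
    rw [h15] at h6
    nlinarith
  have h16 : ‖Ψ k ω (D n (Xh k ω) / b ^ k)‖ ≤ ‖Ψ k ω (b ^ (y - k))‖ + 4 * Real.pi * A * b ^ (d + 2) * ε := by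
    have h17 : ‖Ψ k ω (D n (Xh k ω) / b ^ k)‖ = ‖Ψ k ω (|D n (Xh k ω)| / b ^ k)‖ := by
      rcases abs_choice (D n (Xh k ω)) with h18 | h18
      · rw [h18]
      · rw [h18, neg_div, hF.hΨs]
    have h19 := hF.hΨL k ω (|D n (Xh k ω)| / b ^ k) (b ^ (y - k))
    have h20 : |(|D n (Xh k ω)| / b ^ k - b ^ (y - k))| ≤ ε * (2 * b ^ (d + 2)) := by
      have h21 := hcl k hk
      rw [← hy] at h21
      rw [hyk, ← sub_div, abs_div, abs_of_pos hbk]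
      calc |(|D n (Xh k ω)| - b ^ y)| / b ^ k ≤ ε * b ^ y / b ^ k := by gcongr
        _ = ε * b ^ (y - k) := by rw [hyk]; ring
        _ ≤ _ := by gcongr
    rw [h17]
    have h22 : ‖Ψ k ω (|D n (Xh k ω)| / b ^ k)‖ ≤ ‖Ψ k ω (b ^ (y - k))‖ + ‖Ψ k ω (|D n (Xh k ω)| / b ^ k) - Ψ k ω (b ^ (y - k))‖ := by
      have := norm_add_le (Ψ k ω (b ^ (y - k))) (Ψ k ω (|D n (Xh k ω)| / b ^ k) - Ψ k ω (b ^ (y - k)))
      rwa [add_sub_cancel] at this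
    refine h22.trans (add_le_add le_rfl (h19.trans ?_))
    calc 2 * Real.pi * A * |(|D n (Xh k ω)| / b ^ k - b ^ (y - k))| ≤ 2 * Real.pi * A * (ε * (2 * b ^ (d + 2))) := by gcongr
      _ = _ := by ring
  have hP1 := hF.hΨ1 k ω (D n (Xh k ω) / b ^ k)
  have hp1 := hF.hΨ1 k ω (b ^ (y - k))
  have hP0 := norm_nonneg (Ψ k ω (D n (Xh k ω) / b ^ k))
  have hp0 := norm_nonneg (Ψ k ω (b ^ (y - k)))
  obtain ⟨P, hP⟩ : ∃ P, P = ‖Ψ k ω (D n (Xh k ω) / b ^ k)‖ := ⟨_, rfl⟩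
  obtain ⟨p, hp⟩ : ∃ p, p = ‖Ψ k ω (b ^ (y - k))‖ := ⟨_, rfl⟩
  rw [← hP, ← hp] at h16
  rw [← hP] at hP1 hP0
  rw [← hp] at hp1 hp0
  have h23 : P ^ 2 ≤ p ^ 2 + 2 * (4 * Real.pi * A * b ^ (d + 2) * ε) := by
    have h24 : 0 ≤ 4 * Real.pi * A * b ^ (d + 2) * ε := by positivity
    nlinarith
  have h25 : p ^ 2 ≤ wt (y - k - (d + 1)) * p ^ 2 + 2 * ε / Real.log b := by
    have h26 : 0 ≤ 2 * ε / Real.log b := by positivity
    have h27 : p ^ 2 ≤ 1 := pow_le_one₀ hp0 hp1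
    have h28 : 0 ≤ p ^ 2 := sq_nonneg p
    nlinarith
  have h29 : wt (y - k - (d + 1)) * p ^ 2 ≤ qv b d Ψ ω y := by
    unfold qv
    rw [hp]
    exact single_le_sum (f := fun k : ℕ => wt (y - k - (d + 1)) * ‖Ψ k ω (b ^ (y - k))‖ ^ 2)
      (fun i _ => mul_nonneg (wt_nonneg _) (sq_nonneg _)) (mem_range.2 (Nat.lt_succ_of_le (Nat.le_floor hky)))
  rw [← hP]
  have h30 : ε * (8 * Real.pi * A * b ^ (d + 2) + 2 / Real.log b) =
      2 * (4 * Real.pi * A * b ^ (d + 2) * ε) + 2 * ε / Real.log b := by ring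
  rw [h30]
  linarith

/-- the pointwise step -/
theorem lln_point (hF : Flt μ b A m X Xh Z Ψ) (hL : Loc b A u v F D Kn L κ K θ) (d : ℕ) {ω : Ω}
    (hdd : ∀ ε : ℝ, 0 < ε → ∀ᶠ N : ℕ in atTop,
      ‖∑ n ∈ range N, dd b X Xh Ψ F D L (ww b A u v Xh D Kn κ d n₀ β₁) n ω‖ ≤ ε * N)
    (hsafe : ∀ᶠ n in atTop, Safe b A u v Xh D Kn κ d n₀ β₁ n ω)
    (hr : Tendsto (fun n => 2 * κ n / |D n (X ω)|) atTop (𝓝 0)) (y : ℕ → ℝ) (hy : ∀ᶠ n in atTop, b ^ y n = |D n (X ω)|) :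
    ∀ ε : ℝ, 0 < ε → ∀ᶠ N : ℕ in atTop, ‖∑ n ∈ range N, e (F n (X ω))‖ ^ 2 ≤
      N * (∑ n ∈ range N, qv b d Ψ ω (y n)) + ε * (N : ℝ) ^ 2 := by
  intro ε hε
  have hb := hF.hb
  have hb0 : 0 < b := by linarith
  have hlb : 0 < Real.log b := Real.log_pos hb
  have hA := hF.hA
  obtain ⟨C₆, hC₆⟩ : ∃ C₆ : ℝ, C₆ = 8 * Real.pi * A * b ^ (d + 2) + 2 / Real.log b := ⟨_, rfl⟩
  have hC₆0 : 0 < C₆ := by rw [hC₆]; positivity
  -- single terms
  obtain ⟨ε₂, hε₂⟩ : ∃ ε₂ : ℝ, ε₂ = ε / 4 := ⟨_, rfl⟩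
  have hε₂0 : 0 < ε₂ := by rw [hε₂]; linarith
  obtain ⟨ε₁, hε₁⟩ : ∃ ε₁ : ℝ, ε₁ = min 1 (ε / 20) := ⟨_, rfl⟩
  have hε₁0 : 0 < ε₁ := by rw [hε₁]; exact lt_min one_pos (by linarith)
  obtain ⟨r, hr'⟩ : ∃ r : ℕ → ℝ, r = fun n => ‖e (F n (X ω)) - dd b X Xh Ψ F D L (ww b A u v Xh D Kn κ d n₀ β₁) n ω‖ := ⟨_, rfl⟩
  have hr0 : ∀ n, 0 ≤ r n := fun n => by rw [hr']; exact norm_nonneg _
  have hr3 : ∀ n, r n ≤ 3 := fun n => by
    rw [hr']
    refine (norm_sub_le _ _).trans ?_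
    rw [norm_e]
    linarith [dd_norm (F := F) (L := L) hF (ww_wgt (u := u) (v := v) (Kn := Kn) (L := L) (κ := κ) (C₀ := d) (n₀ := n₀) (β₁ := β₁)
      hF hL.hDm) n ω]
  have hev : ∀ᶠ n in atTop, r n ^ 2 ≤ qv b d Ψ ω (y n) + ε₂ := by
    have h1 : ∀ᶠ n in atTop, 2 * κ n / |D n (X ω)| < min (min (1 / 2) (b - 1)) (ε₂ / C₆) :=
      hr.eventually (gt_mem_nhds (lt_min (lt_min (by norm_num) (by linarith)) (by positivity)))
    filter_upwards [h1, hsafe, hy] with n h2 hS hyn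
    obtain ⟨k, hk, hkK, hdep⟩ := dep_exists hF hL hS
    have hDX : 0 < |D n (X ω)| := by rw [← hyn]; exact Real.rpow_pos_of_pos hb0 _
    have hcl : ∀ k, Kn n ≤ k → |(|D n (Xh k ω)| - |D n (X ω)|)| ≤ 2 * κ n / |D n (X ω)| * |D n (X ω)| := by
      intro k hk
      rw [div_mul_cancel₀ _ hDX.ne']
      refine (abs_abs_sub_abs_le_abs_sub _ _).trans ?_
      refine hL.hD n _ (safe_mem hF hk hS.s1) _ (safe_memX hF hS.s1) ?_
      rw [abs_sub_comm]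
      exact hF.near'' hk ω
    have hκ0 := hL.hκ0 n
    have h3 := point hF hdep hkK (y n) hyn (2 * κ n / |D n (X ω)|) (by positivity)
      (h2.le.trans ((min_le_left _ _).trans (min_le_left _ _))) (h2.le.trans ((min_le_left _ _).trans (min_le_right _ _))) hcl
    have h4 : r n = ‖Ψ k ω (D n (Xh k ω) / b ^ k)‖ := by
      rw [hr']
      simp only
      rw [dd_eq hF hk hdep]
      unfold del
      rw [sub_sub_cancel, norm_mul, norm_e, one_mul]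
    rw [h4]
    refine h3.trans (add_le_add le_rfl ?_)
    rw [← hC₆]
    have h5 : 2 * κ n / |D n (X ω)| ≤ ε₂ / C₆ := h2.le.trans (min_le_right _ _)
    calc 2 * κ n / |D n (X ω)| * C₆ ≤ ε₂ / C₆ * C₆ := by gcongr
      _ = ε₂ := div_mul_cancel₀ _ hC₆0.ne'
  obtain ⟨n₁, hn₁⟩ := eventually_atTop.1 hev
  obtain ⟨n₂, hn₂⟩ := exists_nat_gt (9 * n₁ / ε₂)
  filter_upwards [hdd ε₁ hε₁0, eventually_ge_atTop n₂, eventually_ge_atTop 1] with N hN1 hN2 hN3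
  have hNR : (1 : ℝ) ≤ N := by exact_mod_cast hN3
  have hsum : ∑ n ∈ range N, r n ^ 2 ≤ ∑ n ∈ range N, qv b d Ψ ω (y n) + 2 * ε₂ * N := by
    have h6 : ∀ n ∈ range N, r n ^ 2 ≤ qv b d Ψ ω (y n) + ε₂ + (if n < n₁ then 9 else 0) := by
      intro n _
      split_ifs with h7
      · have h8 := qv_nonneg b d Ψ ω (y n)
        have h9 : r n ^ 2 ≤ 3 ^ 2 := pow_le_pow_left₀ (hr0 n) (hr3 n) 2
        linarith
      · rw [add_zero]
        exact hn₁ n (not_lt.1 h7)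
    refine (sum_le_sum h6).trans ?_
    rw [sum_add_distrib, sum_add_distrib, sum_const, card_range, nsmul_eq_mul]
    have h7 : ∑ n ∈ range N, (if n < n₁ then (9 : ℝ) else 0) ≤ 9 * n₁ := by
      rw [← sum_filter, sum_const, nsmul_eq_mul, mul_comm]
      have h8 : #{n ∈ range N | n < n₁} ≤ n₁ := by
        calc #{n ∈ range N | n < n₁} ≤ #(range n₁) := card_le_card fun x hx => by
              rw [mem_filter] at hx
              exact mem_range.2 hx.2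
          _ = n₁ := card_range _
      have h9 : ((#{n ∈ range N | n < n₁} : ℕ) : ℝ) ≤ n₁ := by exact_mod_cast h8
      linarith
    have h8 : (9 : ℝ) * n₁ ≤ ε₂ * N := by
      rw [div_lt_iff₀ hε₂0] at hn₂
      have : (n₂ : ℝ) ≤ N := by exact_mod_cast hN2
      have : (n₂ : ℝ) * ε₂ ≤ N * ε₂ := by gcongr
      linarith
    linarith
  have hR : (∑ n ∈ range N, r n) ^ 2 ≤ N * ∑ n ∈ range N, r n ^ 2 := by
    have := sq_sum_le_card_mul_sum_sq (s := range N) (f := r)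
    rwa [card_range] at this
  have hR3 : ∑ n ∈ range N, r n ≤ 3 * N := by
    refine (sum_le_card_nsmul _ _ _ fun n _ => hr3 n).trans (le_of_eq ?_)
    rw [card_range, nsmul_eq_mul, mul_comm]
  have hR0 : 0 ≤ ∑ n ∈ range N, r n := sum_nonneg fun n _ => hr0 n
  have hS : ‖∑ n ∈ range N, e (F n (X ω))‖ ≤ ε₁ * N + ∑ n ∈ range N, r n := by
    have h6 : ∑ n ∈ range N, e (F n (X ω)) = ∑ n ∈ range N, dd b X Xh Ψ F D L (ww b A u v Xh D Kn κ d n₀ β₁) n ω +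
        ∑ n ∈ range N, (e (F n (X ω)) - dd b X Xh Ψ F D L (ww b A u v Xh D Kn κ d n₀ β₁) n ω) := by
      rw [← sum_add_distrib]
      exact sum_congr rfl fun n _ => (add_sub_cancel _ _).symm
    rw [h6]
    refine (norm_add_le _ _).trans (add_le_add hN1 ((norm_sum_le _ _).trans (le_of_eq ?_)))
    rw [hr']
  have hε₁1 : ε₁ ≤ 1 := by rw [hε₁]; exact min_le_left _ _
  have hε₁2 : ε₁ ≤ ε / 20 := by rw [hε₁]; exact min_le_right _ _
  have hN0 : (0 : ℝ) ≤ N := by linarith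
  calc ‖∑ n ∈ range N, e (F n (X ω))‖ ^ 2 ≤ (ε₁ * N + ∑ n ∈ range N, r n) ^ 2 := pow_le_pow_left₀ (norm_nonneg _) hS 2
    _ = ε₁ * (ε₁ * (N : ℝ) ^ 2) + 2 * (ε₁ * N) * ∑ n ∈ range N, r n + (∑ n ∈ range N, r n) ^ 2 := by ring
    _ ≤ ε₁ * (1 * (N : ℝ) ^ 2) + 2 * (ε₁ * N) * (3 * N) + N * (∑ n ∈ range N, qv b d Ψ ω (y n) + 2 * ε₂ * N) := by
        refine add_le_add (add_le_add (by gcongr) (by gcongr)) (hR.trans (mul_le_mul_of_nonneg_left hsum hN0))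
    _ = N * (∑ n ∈ range N, qv b d Ψ ω (y n)) + (7 * ε₁ + 2 * ε₂) * (N : ℝ) ^ 2 := by ring
    _ ≤ N * (∑ n ∈ range N, qv b d Ψ ω (y n)) + ε * (N : ℝ) ^ 2 := by
        have h10 : 7 * ε₁ + 2 * ε₂ ≤ ε := by rw [hε₂]; linarith
        have h11 : (7 * ε₁ + 2 * ε₂) * (N : ℝ) ^ 2 ≤ ε * (N : ℝ) ^ 2 := mul_le_mul_of_nonneg_right h10 (sq_nonneg _)
        linarith

end Pool.Agent.Helper46.HQ
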