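import Pool.Agent.Helper46.HQ.AS

/-!
# Random numbers revealed along a filtration: the weights, and the pointwise step
-/

set_option autoImplicit false

namespace Pool.Agent.Helper46.HQ

open Finset MeasureTheory ProbabilityTheory Filter Topology
open Pool.Agent.Helper59.RE (e norm_e e_add e_sub conj_e continuous_e e_zero norm_e_sub)

variable {Ω : Type*} [mΩ : MeasurableSpace Ω] {μ : Measure Ω} [IsProbabilityMeasure μ] {b A : ℝ}
    {m : ℕ → MeasurableSpace Ω} {X : Ω → ℝ} {Xh Z : ℕ → Ω → ℝ} {Ψ : ℕ → Ω → ℝ → ℂ} {u v : ℝ} {F D : ℕ → ℝ → ℝ}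
    {Kn L : ℕ → ℕ} {κ : ℕ → ℝ} {C₀ n₀ : ℕ} {β₁ K θ : ℝ} {w : ℕ → ℕ → Ω → ℝ}

/-- the depth `k` is the right one for `n` -/
def Dep (b A u v : ℝ) (Xh : ℕ → Ω → ℝ) (D : ℕ → ℝ → ℝ) (Kn : ℕ → ℕ) (κ : ℕ → ℝ) (C₀ n₀ : ℕ) (β₁ : ℝ) (n k : ℕ) (ω : Ω) : Prop :=
  Safe b A u v Xh D Kn κ C₀ n₀ β₁ n ω ∧ b ^ (C₀ + k + 1) ≤ |D n (Xh (Kn n) ω)| ∧ |D n (Xh (Kn n) ω)| < b ^ (C₀ + k + 2)

open Classical in
/-- the weights -/
noncomputable def ww (b A u v : ℝ) (Xh : ℕ → Ω → ℝ) (D : ℕ → ℝ → ℝ) (Kn : ℕ → ℕ) (κ : ℕ → ℝ) (C₀ n₀ : ℕ) (β₁ : ℝ)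
    (n k : ℕ) (ω : Ω) : ℝ := if Dep b A u v Xh D Kn κ C₀ n₀ β₁ n k ω then 1 else 0

omit mΩ in
theorem Dep.unique (hb : 1 < b) {n k k' : ℕ} {ω : Ω} (h : Dep b A u v Xh D Kn κ C₀ n₀ β₁ n k ω)
    (h' : Dep b A u v Xh D Kn κ C₀ n₀ β₁ n k' ω) : k = k' := by
  have h1 : C₀ + k + 1 < C₀ + k' + 2 := (pow_lt_pow_iff_right₀ hb).1 (h.2.1.trans_lt h'.2.2)
  have h2 : C₀ + k' + 1 < C₀ + k + 2 := (pow_lt_pow_iff_right₀ hb).1 (h'.2.1.trans_lt h.2.2)
  omega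

omit mΩ in
theorem safe_meas (mk : MeasurableSpace Ω) (n : ℕ) (hX : Measurable[mk] (Xh (Kn n))) (hDm : ∀ n, Measurable (D n)) :
    MeasurableSet[mk] {ω | Safe b A u v Xh D Kn κ C₀ n₀ β₁ n ω} := by
  have h1 : {ω | Safe b A u v Xh D Kn κ C₀ n₀ β₁ n ω} = {ω | n₀ ≤ n} ∩
      (Xh (Kn n) ⁻¹' (Set.Icc (u + 2 * A / b ^ Kn n) (v - 2 * A / b ^ Kn n)) ∩
      ({ω | b ^ (Kn n + C₀ + 2) ≤ |D n (Xh (Kn n) ω)|} ∩ ({ω | 8 * κ n ≤ |D n (Xh (Kn n) ω)|} ∩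
      ⋂ j : ℕ, {ω | n₀ ≤ j → j < n → β₁ ^ (n - j) * |D j (Xh (Kn n) ω)| ≤ 4 * |D n (Xh (Kn n) ω)|}))) := by
    ext ω
    simp only [Set.mem_inter_iff, Set.mem_iInter, Set.mem_preimage]
    constructor
    · intro h
      exact ⟨h.s0, h.s1, h.s2, h.s3, h.s4⟩
    · rintro ⟨a1, a2, a3, a4, a5⟩
      exact ⟨a1, a2, a3, a4, a5⟩
  have hD : ∀ j, Measurable[mk] fun ω => |D j (Xh (Kn n) ω)| := fun j => ((hDm j).comp hX).abs
  rw [h1]
  refine MeasurableSet.inter (MeasurableSet.const _) (MeasurableSet.inter (hX measurableSet_Icc) (MeasurableSet.inter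
    (measurableSet_le measurable_const (hD n)) (MeasurableSet.inter (measurableSet_le measurable_const (hD n))
    (MeasurableSet.iInter fun j => ?_))))
  by_cases hj : n₀ ≤ j ∧ j < n
  · have h2 : {ω | n₀ ≤ j → j < n → β₁ ^ (n - j) * |D j (Xh (Kn n) ω)| ≤ 4 * |D n (Xh (Kn n) ω)|} =
        {ω | β₁ ^ (n - j) * |D j (Xh (Kn n) ω)| ≤ 4 * |D n (Xh (Kn n) ω)|} := by
      ext ω
      constructor
      · intro h
        exact h hj.1 hj.2
      · intro h _ _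
        exact h
    rw [h2]
    exact measurableSet_le ((hD j).const_mul _) ((hD n).const_mul _)
  · have h2 : {ω | n₀ ≤ j → j < n → β₁ ^ (n - j) * |D j (Xh (Kn n) ω)| ≤ 4 * |D n (Xh (Kn n) ω)|} = Set.univ := by
      ext ω
      constructor
      · intro _
        trivial
      · intro _ h3 h4
        exact absurd ⟨h3, h4⟩ hj
    rw [h2]
    exact MeasurableSet.univ

omit mΩ in
theorem ww_meas (mk : MeasurableSpace Ω) (n k : ℕ) (hX : Measurable[mk] (Xh (Kn n))) (hDm : ∀ n, Measurable (D n)) :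
    Measurable[mk] (ww b A u v Xh D Kn κ C₀ n₀ β₁ n k) := by
  classical
  have hD : Measurable[mk] fun ω => |D n (Xh (Kn n) ω)| := ((hDm n).comp hX).abs
  have hS : MeasurableSet[mk] {ω | Dep b A u v Xh D Kn κ C₀ n₀ β₁ n k ω} :=
    MeasurableSet.inter (safe_meas mk n hX hDm) (MeasurableSet.inter (measurableSet_le measurable_const hD)
      (measurableSet_lt hD measurable_const))
  unfold ww
  exact Measurable.ite hS measurable_const measurable_const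

theorem ww_wgt (hF : Flt μ b A m X Xh Z Ψ) (hDm : ∀ n, Measurable (D n)) :
    Wgt b A m Xh u v D Kn L κ C₀ n₀ β₁ (ww b A u v Xh D Kn κ C₀ n₀ β₁) := by
  classical
  refine ⟨fun n k ω => ?_, fun n ω => ?_, fun n k => ?_, fun n k ω h => ?_⟩
  · unfold ww
    split_ifs
    · exact zero_le_one
    · exact le_rfl
  · unfold ww
    rw [sum_boole]
    have h1 : #{k ∈ range (L n + 1) | Dep b A u v Xh D Kn κ C₀ n₀ β₁ n k ω} ≤ 1 := by
      rw [card_le_one]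
      intro k hk k' hk'
      rw [mem_filter] at hk hk'
      exact hk.2.unique hF.hb hk'.2
    exact_mod_cast h1
  · by_cases hk : Kn n ≤ k
    · exact ww_meas (m k) n k ((hF.hXh (Kn n)).mono (hF.mono hk) le_rfl) hDm
    · have h1 : ww b A u v Xh D Kn κ C₀ n₀ β₁ n k = fun _ => 0 := by
        funext ω
        unfold ww
        rw [if_neg]
        rintro ⟨h2, _, h4⟩
        have h5 : Kn n + C₀ + 2 < C₀ + k + 2 := (pow_lt_pow_iff_right₀ hF.hb).1 (h2.s2.trans_lt h4)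
        omega
      rw [h1]
      exact measurable_const
  · unfold ww at h
    have h1 : Dep b A u v Xh D Kn κ C₀ n₀ β₁ n k ω := by
      by_contra h2
      exact h (if_neg h2)
    refine ⟨h1.1, (pow_lt_pow_right₀ hF.hb (by omega : C₀ + k < C₀ + k + 1)).trans_le h1.2.1, h1.2.2⟩

/-- existence of the depth -/
theorem dep_exists (hF : Flt μ b A m X Xh Z Ψ) (hL : Loc b A u v F D Kn L κ K θ) {n : ℕ} {ω : Ω}
    (h : Safe b A u v Xh D Kn κ C₀ n₀ β₁ n ω) : ∃ k ∈ range (L n + 1), Kn n ≤ k ∧ Dep b A u v Xh D Kn κ C₀ n₀ β₁ n k ω := by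
  have hb := hF.hb
  have h1 : 1 ≤ |D n (Xh (Kn n) ω)| := (one_le_pow₀ hb.le).trans h.s2
  obtain ⟨p, hp1, hp2⟩ := exists_nat_pow_near h1 hb
  have h2 : Kn n + C₀ + 2 < p + 1 := (pow_lt_pow_iff_right₀ hb).1 (h.s2.trans_lt hp2)
  have h3 : p ≤ L n := (pow_le_pow_iff_right₀ hb).1 (hp1.trans (hL.hup n _ (safe_mem hF le_rfl h.s1)))
  refine ⟨p - (C₀ + 1), mem_range.2 (by omega), by omega, h, ?_, ?_⟩
  · rwa [show C₀ + (p - (C₀ + 1)) + 1 = p by omega]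
  · rwa [show C₀ + (p - (C₀ + 1)) + 2 = p + 1 by omega]

/-- the difference in terms of the depth -/
theorem dd_eq (hF : Flt μ b A m X Xh Z Ψ) {n k : ℕ} {ω : Ω} (hk : k ∈ range (L n + 1))
    (h : Dep b A u v Xh D Kn κ C₀ n₀ β₁ n k ω) :
    dd b X Xh Ψ F D L (ww b A u v Xh D Kn κ C₀ n₀ β₁) n ω = del b X Xh Ψ F D n k ω := by
  unfold dd
  rw [sum_eq_single_of_mem k hk]
  · unfold ww
    rw [if_pos h]
    simp
  · intro k' _ hk'
    unfold ww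
    rw [if_neg fun h' => hk' (h'.unique hF.hb h)]
    simp

end Pool.Agent.Helper46.HQ
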